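import Pool.Agent.Q299.PPR.Core

/-!
# Averages over finite sets of numbers: truncated means, waiting times and laws
-/

set_option autoImplicit false

namespace Pool.Agent.Q299.PPR.Av

open Filter Finset
open scoped Classical

/-- the mean value of `f` over the set `A X` -/
noncomputable def av (A : ℕ → Finset ℕ) (X : ℕ) (f : ℕ → ℝ) : ℝ :=
  (∑ d ∈ A X, f d) / ((A X).card : ℝ)

variable (A : ℕ → Finset ℕ)

theorem av_sub (X : ℕ) (f g : ℕ → ℝ) : av A X f - av A X g = av A X (fun p => f p - g p) := by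
  unfold av
  rw [← sub_div, ← sum_sub_distrib]

theorem av_add (X : ℕ) (f g : ℕ → ℝ) : av A X f + av A X g = av A X (fun p => f p + g p) := by
  unfold av
  rw [← add_div, ← sum_add_distrib]

theorem av_abs (X : ℕ) (f g : ℕ → ℝ) (hfg : ∀ p, |f p| ≤ g p) : |av A X f| ≤ av A X g := by
  unfold av
  rw [abs_div, Nat.abs_cast]
  exact div_le_div_of_nonneg_right
    ((abs_sum_le_sum_abs _ _).trans (sum_le_sum fun p _ => hfg p)) (by positivity)

theorem av_mono (X : ℕ) (f g : ℕ → ℝ) (hfg : ∀ p, f p ≤ g p) : av A X f ≤ av A X g := by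
  unfold av
  exact div_le_div_of_nonneg_right (sum_le_sum fun p _ => hfg p) (by positivity)

theorem av_const_le (X : ℕ) (c : ℝ) (hc : 0 ≤ c) : av A X (fun _ => c) ≤ c := by
  unfold av
  rw [sum_const, nsmul_eq_mul]
  rcases Nat.eq_zero_or_pos (A X).card with h0 | h0
  · rw [h0]
    simp [hc]
  · have h0r : (0 : ℝ) < ((A X).card : ℝ) := by exact_mod_cast h0
    rw [mul_comm, mul_div_assoc, div_self h0r.ne', mul_one]

theorem av_sum {ι : Type} (X : ℕ) (s : Finset ι) (f : ι → ℕ → ℝ) (c : ι → ℝ) :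
    av A X (fun p => ∑ j ∈ s, c j * f j p) = ∑ j ∈ s, c j * av A X (f j) := by
  unfold av
  rw [sum_comm, sum_div]
  refine sum_congr rfl fun j _ => ?_
  rw [← mul_sum, mul_div_assoc]

theorem av_bound (X : ℕ) (f g : ℕ → ℝ) (G : ℕ → Prop) (δ C : ℝ) (hδ : 0 ≤ δ)
    (h1 : ∀ p ∈ A X, G p → |f p - g p| ≤ δ) (h2 : ∀ p, |f p - g p| ≤ C) :
    |av A X f - av A X g| ≤ δ +
      C * ((((A X).filter (fun d => ¬ G d)).card : ℝ) / ((A X).card : ℝ)) := by
  unfold av
  rw [← sub_div, ← sum_sub_distrib, abs_div, Nat.abs_cast]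
  rcases Nat.eq_zero_or_pos (A X).card with h0 | h0
  · rw [h0]
    simp [hδ]
  have h0r : (0 : ℝ) < ((A X).card : ℝ) := by exact_mod_cast h0
  rw [div_le_iff₀ h0r, add_mul, mul_div_assoc', div_mul_cancel₀ _ h0r.ne']
  refine (abs_sum_le_sum_abs _ _).trans ?_
  rw [← sum_filter_add_sum_filter_not _ (fun d => G d)]
  apply add_le_add
  · refine (sum_le_sum (g := fun _ => δ) fun p hp => ?_).trans ?_
    · rw [mem_filter] at hp
      exact h1 p hp.1 hp.2
    · rw [sum_const, nsmul_eq_mul, mul_comm]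
      apply mul_le_mul_of_nonneg_left _ hδ
      exact_mod_cast card_le_card (filter_subset _ _)
  · refine (sum_le_sum (g := fun _ => C) fun p _ => h2 p).trans ?_
    rw [sum_const, nsmul_eq_mul, mul_comm]

/-! ## truncated waiting times -/

/-- the sum of the first `K` powers of `1 - s` -/
noncomputable def geo (K : ℕ) (s : ℝ) : ℝ := ∑ k ∈ range K, (1 - s) ^ k

theorem geo_nonneg (K : ℕ) (s : ℝ) (h1 : s ≤ 1) : 0 ≤ geo K s :=
  sum_nonneg fun k _ => pow_nonneg (by linarith) k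

theorem geo_le (K : ℕ) (s : ℝ) (h0 : 0 ≤ s) (h1 : s ≤ 1) : geo K s ≤ K := by
  unfold geo
  refine (sum_le_sum (g := fun _ => (1 : ℝ)) fun k _ => ?_).trans (by simp)
  exact pow_le_one₀ (by linarith) (by linarith)

theorem geo_eq (K : ℕ) (t : ℝ) (ht : 1 ≤ t) : geo K (1 / t) = t - t * (1 - 1 / t) ^ K := by
  have ht0 : t ≠ 0 := by linarith
  have h1 := mul_neg_geom_sum (1 - 1 / t) K
  unfold geo
  have h2 : (1 - (1 - 1 / t)) * t = 1 := by
    rw [sub_sub_cancel, one_div, inv_mul_cancel₀ ht0]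
  calc ∑ k ∈ range K, (1 - 1 / t) ^ k
      = ((1 - (1 - 1 / t)) * t) * ∑ k ∈ range K, (1 - 1 / t) ^ k := by rw [h2, one_mul]
    _ = t * ((1 - (1 - 1 / t)) * ∑ k ∈ range K, (1 - 1 / t) ^ k) := by ring
    _ = t * (1 - (1 - 1 / t) ^ K) := by rw [h1]
    _ = t - t * (1 - 1 / t) ^ K := by ring

theorem geo_upper (K : ℕ) (t : ℝ) (ht : 1 ≤ t) : geo K (1 / t) ≤ min t K := by
  have h0 : 0 ≤ 1 / t := by positivity
  have h1 : 1 / t ≤ 1 := by
    rw [div_le_one (by linarith)]
    exact ht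
  refine le_min ?_ (geo_le K _ h0 h1)
  rw [geo_eq K t ht]
  have : 0 ≤ t * (1 - 1 / t) ^ K := mul_nonneg (by linarith) (pow_nonneg (by linarith) K)
  linarith

theorem pow_exp (K : ℕ) (t : ℝ) (ht : 1 ≤ t) : (1 - 1 / t) ^ K ≤ Real.exp (-(K / t)) := by
  have h1 : 1 / t ≤ 1 := by
    rw [div_le_one (by linarith)]
    exact ht
  have h2 : 1 - 1 / t ≤ Real.exp (-(1 / t)) := by
    have := Real.add_one_le_exp (-(1 / t))
    linarith
  have h3 : (1 - 1 / t) ^ K ≤ Real.exp (-(1 / t)) ^ K := pow_le_pow_left₀ (by linarith) h2 K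
  rw [← Real.exp_nat_mul] at h3
  have e : (K : ℝ) * -(1 / t) = -(K / t) := by ring
  rwa [e] at h3

theorem geo_anti (K : ℕ) (s r : ℝ) (h : s ≤ r) (h1 : r ≤ 1) : geo K r ≤ geo K s := by
  unfold geo
  refine sum_le_sum fun k _ => ?_
  exact pow_le_pow_left₀ (by linarith) (by linarith) k

theorem geo_lower (K : ℕ) (t T : ℝ) (ht : 1 ≤ t) (hT : 1 ≤ T) :
    min t T - T * Real.exp (-(K / T)) ≤ geo K (1 / t) := by
  rcases le_total t T with h | h
  · rw [min_eq_left h, geo_eq K t ht]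
    have h1 := pow_exp K t ht
    have h2 : Real.exp (-(K / t)) ≤ Real.exp (-(K / T)) := by
      apply Real.exp_le_exp.2
      have : (K : ℝ) / T ≤ K / t := by
        apply div_le_div_of_nonneg_left (by positivity) (by linarith) h
      linarith
    have h3 : t * (1 - 1 / t) ^ K ≤ T * Real.exp (-(K / T)) :=
      mul_le_mul h (h1.trans h2) (pow_nonneg (by
        have : 1 / t ≤ 1 := by
          rw [div_le_one (by linarith)]
          exact ht
        linarith) K) (by linarith)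
    linarith
  · rw [min_eq_right h]
    have h1 : geo K (1 / T) ≤ geo K (1 / t) := by
      apply geo_anti
      · exact one_div_le_one_div_of_le (by linarith) h
      · rw [div_le_one (by linarith)]
        exact hT
    refine le_trans ?_ h1
    rw [geo_eq K T hT]
    have h2 := mul_le_mul_of_nonneg_left (pow_exp K T hT) (show 0 ≤ T by linarith)
    linarith

theorem geo_lip (K : ℕ) (s r : ℝ) (hs0 : 0 ≤ s) (hs1 : s ≤ 1) (hr0 : 0 ≤ r) (hr1 : r ≤ 1) :
    |geo K s - geo K r| ≤ (K : ℝ) ^ 2 * |s - r| := by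
  unfold geo
  rw [← sum_sub_distrib]
  refine (abs_sum_le_sum_abs _ _).trans ?_
  have h1 : ∀ k ∈ range K, |(1 - s) ^ k - (1 - r) ^ k| ≤ K * |s - r| := by
    intro k hk
    have h2 := pow_diff (show 0 ≤ 1 - s by linarith) (by linarith) (show 0 ≤ 1 - r by linarith)
      (by linarith) k
    have e : 1 - s - (1 - r) = -(s - r) := by ring
    rw [e, abs_neg] at h2
    refine h2.trans ?_
    apply mul_le_mul_of_nonneg_right _ (abs_nonneg _)
    exact_mod_cast (mem_range.1 hk).le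
  refine (sum_le_sum h1).trans ?_
  rw [sum_const, card_range, nsmul_eq_mul]
  nlinarith

/-! ## truncated means and waiting times -/

section

variable (s : ℕ → ℝ) (t : ℕ → ℕ) (hs0 : ∀ d, 0 ≤ s d) (hs1 : ∀ d, s d ≤ 1) (ht : ∀ d, 1 ≤ t d)
  (G : ℝ → ℕ → Prop) (hG : ∀ δ X, ∀ d ∈ A X, G δ d → |s d - 1 / (t d : ℝ)| ≤ δ)
  (hbad : ∀ δ : ℝ, 0 < δ → Tendsto (fun X : ℕ => (((A X).filter (fun d => ¬ G δ d)).card : ℝ) /
      ((A X).card : ℝ)) atTop (nhds 0))

include ht in
theorem inv_t (d : ℕ) : 0 ≤ 1 / (t d : ℝ) ∧ 1 / (t d : ℝ) ≤ 1 := by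
  have : (1 : ℝ) ≤ t d := by exact_mod_cast ht d
  refine ⟨by positivity, ?_⟩
  rw [div_le_one (by linarith)]
  exact this

include hs0 hs1 ht hG hbad

/-- replacing the frequency by the inverse of the number in a bounded Lipschitz function -/
theorem lip_tendsto (Φ : ℝ → ℝ) (L C : ℝ) (hL : 0 ≤ L)
    (hΦ : ∀ x y, 0 ≤ x → x ≤ 1 → 0 ≤ y → y ≤ 1 → |Φ x - Φ y| ≤ L * |x - y| ∧ |Φ x - Φ y| ≤ C) :
    Tendsto (fun X => av A X (fun d => Φ (s d)) - av A X (fun d => Φ (1 / (t d : ℝ)))) atTop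
      (nhds 0) := by
  rw [Metric.tendsto_atTop]
  intro ε hε
  have hC : 0 ≤ C := (abs_nonneg _).trans (hΦ 0 0 le_rfl zero_le_one le_rfl zero_le_one).2
  set δ : ℝ := ε / (2 * (L + 1)) with hδ
  have hδ0 : 0 < δ := by positivity
  have h1 := hbad δ hδ0
  rw [Metric.tendsto_atTop] at h1
  obtain ⟨N, hN⟩ := h1 (ε / (2 * (C + 1))) (by positivity)
  refine ⟨N, fun X hX => ?_⟩
  have h2 := hN X hX
  rw [Real.dist_0_eq_abs, abs_of_nonneg (by positivity)] at h2
  rw [Real.dist_0_eq_abs]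
  have h3 := av_bound A X (fun d => Φ (s d)) (fun d => Φ (1 / (t d : ℝ))) (G δ) (L * δ) C
    (by positivity) (fun d hd hg => by
      have h4 := (hΦ (s d) (1 / (t d : ℝ)) (hs0 d) (hs1 d) (inv_t t ht d).1 (inv_t t ht d).2).1
      exact h4.trans (mul_le_mul_of_nonneg_left (hG δ X d hd hg) hL))
    (fun d => (hΦ (s d) (1 / (t d : ℝ)) (hs0 d) (hs1 d) (inv_t t ht d).1 (inv_t t ht d).2).2)
  refine lt_of_le_of_lt h3 ?_
  have h5 : L * δ < ε / 2 := by
    rw [hδ, mul_div_assoc', div_lt_div_iff₀ (by positivity) (by norm_num)]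
    nlinarith
  have h6 : C * ((((A X).filter (fun d => ¬ G δ d)).card : ℝ) / ((A X).card : ℝ)) ≤
      C * (ε / (2 * (C + 1))) := mul_le_mul_of_nonneg_left h2.le hC
  have h7 : C * (ε / (2 * (C + 1))) ≤ ε / 2 := by
    rw [mul_div_assoc', div_le_div_iff₀ (by positivity) (by norm_num)]
    nlinarith
  linarith

theorem wait_tendsto (K : ℕ) :
    Tendsto (fun X => av A X (fun d => geo K (s d)) - av A X (fun d => geo K (1 / (t d : ℝ))))
      atTop (nhds 0) := by
  refine lip_tendsto A s t hs0 hs1 ht G hG hbad (geo K) ((K : ℝ) ^ 2) K (by positivity) ?_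
  intro x y hx0 hx1 hy0 hy1
  refine ⟨geo_lip K x y hx0 hx1 hy0 hy1, ?_⟩
  have h1 := geo_nonneg K x hx1
  have h2 := geo_nonneg K y hy1
  have h3 := geo_le K x hx0 hx1
  have h4 := geo_le K y hy0 hy1
  rw [abs_le]
  constructor <;> linarith

theorem sandwich (K T : ℕ) (hT : 1 ≤ T) (ε : ℝ) (hε : 0 < ε) : ∀ᶠ X in atTop,
    av A X (fun d => min (t d : ℝ) T) - T * Real.exp (-(K / T)) - ε ≤
      av A X (fun d => geo K (s d)) ∧
    av A X (fun d => geo K (s d)) ≤ av A X (fun d => min (t d : ℝ) K) + ε := by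
  have h1 := wait_tendsto A s t hs0 hs1 ht G hG hbad K
  rw [Metric.tendsto_atTop] at h1
  obtain ⟨N, hN⟩ := h1 ε hε
  filter_upwards [eventually_ge_atTop N] with X hX
  have h2 := hN X hX
  rw [Real.dist_0_eq_abs, abs_lt] at h2
  have ht1 : ∀ d, (1 : ℝ) ≤ t d := fun d => by exact_mod_cast ht d
  have hT1 : (1 : ℝ) ≤ T := by exact_mod_cast hT
  have h3 : av A X (fun d => geo K (1 / (t d : ℝ))) ≤ av A X (fun d => min (t d : ℝ) K) :=
    av_mono A X _ _ fun d => geo_upper K _ (ht1 d)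
  have h4 : av A X (fun d => min (t d : ℝ) T) ≤
      av A X (fun d => geo K (1 / (t d : ℝ)) + T * Real.exp (-(K / T))) :=
    av_mono A X _ _ fun d => by
      have := geo_lower K (t d) T (ht1 d) hT1
      linarith
  rw [← av_add] at h4
  have h5 := av_const_le A X (T * Real.exp (-(K / T))) (by positivity)
  constructor <;> linarith [h2.1, h2.2]

omit hs0 hs1 ht hG hbad in
theorem exp_small (T : ℕ) (hT : 1 ≤ T) (ε : ℝ) (hε : 0 < ε) :
    ∀ᶠ K : ℕ in atTop, (T : ℝ) * Real.exp (-(K / T)) ≤ ε := by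
  have hT0 : (0 : ℝ) < T := by exact_mod_cast hT
  have h1 : Tendsto (fun K : ℕ => (T : ℝ) * Real.exp (-((K : ℝ) / T))) atTop (nhds (T * 0)) := by
    apply Tendsto.const_mul
    apply Real.tendsto_exp_neg_atTop_nhds_zero.comp
    exact tendsto_natCast_atTop_atTop.atTop_div_const hT0
  rw [mul_zero] at h1
  exact (h1.eventually (gt_mem_nhds hε)).mono fun K hK => hK.le

theorem iff_trunc (c : ℝ) :
    (∀ ε : ℝ, 0 < ε → ∀ᶠ T : ℕ in atTop, ∀ᶠ X in atTop,
      |av A X (fun d => min (t d : ℝ) T) - c| ≤ ε) ↔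
    (∀ ε : ℝ, 0 < ε → ∀ᶠ K : ℕ in atTop, ∀ᶠ X in atTop,
      |av A X (fun d => geo K (s d)) - c| ≤ ε) := by
  have hsw := sandwich A s t hs0 hs1 ht G hG hbad
  constructor
  · intro h ε hε
    have h1 := h (ε / 3) (by linarith)
    obtain ⟨T0, hT0⟩ := eventually_atTop.1 h1
    set T1 := max T0 1 with hT1
    have h2 := hT0 T1 (le_max_left _ _)
    have hT11 : 1 ≤ T1 := le_max_right _ _
    filter_upwards [exp_small T1 hT11 (ε / 3) (by linarith), eventually_ge_atTop T0] with K hK hK0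
    filter_upwards [h2, hT0 K hK0, hsw K T1 hT11 (ε / 3) (by linarith)] with X h3 h4 h5
    rw [abs_le] at h3 h4 ⊢
    constructor <;> linarith [h3.1, h3.2, h4.1, h4.2, h5.1, h5.2]
  · intro h ε hε
    have h1 := h (ε / 3) (by linarith)
    obtain ⟨K1, hK1⟩ := eventually_atTop.1 h1
    filter_upwards [eventually_ge_atTop (max K1 1)] with T hT
    have hT1 : 1 ≤ T := (le_max_right _ _).trans hT
    have hTK : K1 ≤ T := (le_max_left _ _).trans hT
    obtain ⟨K, hK, hKK⟩ := ((exp_small T hT1 (ε / 3) (by linarith)).and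
      (eventually_ge_atTop K1)).exists
    filter_upwards [hK1 T hTK, hK1 K hKK, hsw T T hT1 (ε / 3) (by linarith),
      hsw K T hT1 (ε / 3) (by linarith)] with X h3 h4 h5 h6
    rw [abs_le] at h3 h4 ⊢
    constructor <;> linarith [h3.1, h3.2, h4.1, h4.2, h5.1, h5.2, h6.1, h6.2]

theorem pow_tendsto (k : ℕ) :
    Tendsto (fun X => av A X (fun d => s d ^ k) - av A X (fun d => (1 / (t d : ℝ)) ^ k))
      atTop (nhds 0) := by
  refine lip_tendsto A s t hs0 hs1 ht G hG hbad (fun x => x ^ k) k 1 (by positivity) ?_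
  intro x y hx0 hx1 hy0 hy1
  refine ⟨pow_diff hx0 hx1 hy0 hy1 k, ?_⟩
  have h1 := pow_nonneg hx0 k
  have h2 := pow_nonneg hy0 k
  have h3 := pow_le_one₀ (n := k) hx0 hx1
  have h4 := pow_le_one₀ (n := k) hy0 hy1
  rw [abs_le]
  constructor <;> linarith

end

/-! ## laws -/

section

variable (t : ℕ → ℕ) (ht : ∀ d, 1 ≤ t d)

theorem av_decomp (s : Finset ℕ) (g : ℕ → ℝ) (hg : ∀ j, |g j| ≤ 1) (X : ℕ) :
    |av A X (fun p => g (t p)) - ∑ j ∈ s, g j * av A X (fun d => if t d = j then (1 : ℝ) else 0)| ≤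
      1 - ∑ j ∈ s, av A X (fun d => if t d = j then (1 : ℝ) else 0) := by
  have e2 : ∑ j ∈ s, av A X (fun d => if t d = j then (1 : ℝ) else 0) =
      av A X (fun p => ∑ j ∈ s, (1 : ℝ) * (if t p = j then (1 : ℝ) else 0)) := by
    rw [av_sum]
    exact sum_congr rfl fun j _ => by rw [one_mul]
  rw [← av_sum, e2, av_sub]
  have h1 : av A X (fun p => 1 - ∑ j ∈ s, (1 : ℝ) * (if t p = j then (1 : ℝ) else 0)) ≤
      1 - av A X (fun p => ∑ j ∈ s, (1 : ℝ) * (if t p = j then (1 : ℝ) else 0)) := by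
    rw [← av_sub]
    linarith [av_const_le A X 1 (by norm_num)]
  refine (av_abs A X _ _ fun p => ?_).trans h1
  by_cases hs : t p ∈ s
  · rw [sum_eq_single_of_mem (t p) hs, sum_eq_single_of_mem (t p) hs]
    · simp
    · intro b _ hb
      rw [if_neg (Ne.symm hb), mul_zero]
    · intro b _ hb
      rw [if_neg (Ne.symm hb), mul_zero]
  · rw [sum_eq_zero, sum_eq_zero]
    · rw [sub_zero, sub_zero]
      exact hg (t p)
    · intro b hb
      have hne : ¬ t p = b := fun e => hs (by rw [e]; exact hb)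
      rw [if_neg hne, mul_zero]
    · intro b hb
      have hne : ¬ t p = b := fun e => hs (by rw [e]; exact hb)
      rw [if_neg hne, mul_zero]

theorem law_to_av (w : ℕ → ℝ) (hw : ∀ j, 0 ≤ w j) (hs : HasSum w 1)
    (hP : ∀ j, Tendsto (fun X => av A X (fun d => if t d = j then (1 : ℝ) else 0)) atTop
      (nhds (w j))) (g : ℕ → ℝ) (hg : ∀ j, |g j| ≤ 1) :
    Tendsto (fun X => av A X (fun p => g (t p))) atTop (nhds (∑' j, w j * g j)) := by
  have hsum : Summable (fun j => w j * g j) := by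
    refine Summable.of_norm_bounded hs.summable fun j => ?_
    rw [Real.norm_eq_abs, abs_mul, abs_of_nonneg (hw j)]
    exact mul_le_of_le_one_right (hw j) (hg j)
  rw [Metric.tendsto_atTop]
  intro ε hε
  obtain ⟨s, hs1⟩ : ∃ s : Finset ℕ, 1 - ε / 8 < ∑ j ∈ s, w j :=
    (hs.eventually (lt_mem_nhds (show 1 - ε / 8 < 1 by linarith))).exists
  have hs2 : |∑' j, w j * g j - ∑ j ∈ s, w j * g j| ≤ ε / 8 := by
    rw [← hsum.sum_add_tsum_subtype_compl s, add_sub_cancel_left]
    have hsc : Summable (fun j : {x // x ∉ s} => w j) := hs.summable.subtype _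
    have hscg : Summable (fun j : {x // x ∉ s} => w j * g j) := hsum.subtype _
    have h2 : ∑' j : {x // x ∉ s}, w j ≤ ε / 8 := by
      have h3 := hs.summable.sum_add_tsum_subtype_compl s
      rw [hs.tsum_eq] at h3
      linarith
    refine le_trans ?_ h2
    rw [← Real.norm_eq_abs]
    refine (norm_tsum_le_tsum_norm hscg.norm).trans ?_
    refine hscg.norm.tsum_le_tsum (fun j => ?_) hsc
    rw [Real.norm_eq_abs, abs_mul, abs_of_nonneg (hw j)]
    exact mul_le_of_le_one_right (hw j) (hg j)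
  have h1 : Tendsto (fun X => ∑ j ∈ s, av A X (fun d => if t d = j then (1 : ℝ) else 0)) atTop
      (nhds (∑ j ∈ s, w j)) := tendsto_finsetSum _ fun j _ => hP j
  have h2 : Tendsto (fun X => ∑ j ∈ s, g j * av A X (fun d => if t d = j then (1 : ℝ) else 0)) atTop
      (nhds (∑ j ∈ s, g j * w j)) := tendsto_finsetSum _ fun j _ => (hP j).const_mul (g j)
  rw [Metric.tendsto_atTop] at h1 h2
  obtain ⟨N1, hN1⟩ := h1 (ε / 8) (by linarith)
  obtain ⟨N2, hN2⟩ := h2 (ε / 8) (by linarith)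
  refine ⟨max N1 N2, fun X hX => ?_⟩
  have h3 := hN1 X ((le_max_left _ _).trans hX)
  have h4 := hN2 X ((le_max_right _ _).trans hX)
  have h5 := av_decomp A t s g hg X
  have h6 : ∑ j ∈ s, g j * w j = ∑ j ∈ s, w j * g j := sum_congr rfl fun j _ => mul_comm _ _
  rw [h6] at h4
  rw [Real.dist_eq, abs_lt] at h3 h4
  rw [abs_le] at h5 hs2
  rw [Real.dist_eq, abs_lt]
  constructor <;> linarith [h3.1, h3.2, h4.1, h4.2, h5.1, h5.2, hs2.1, hs2.2]

theorem av_poly (w : ℕ → ℝ) (hs : Summable w) (hw : ∀ j, 0 ≤ w j)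
    (hm : ∀ k : ℕ, 1 ≤ k → Tendsto (fun X => av A X (fun p => (1 / (t p : ℝ)) ^ k)) atTop
      (nhds (∑' j, w j * (1 / (j : ℝ)) ^ k))) (Q : Polynomial ℝ) (hQ : Q.coeff 0 = 0) :
    Tendsto (fun X => av A X (fun p => Q.eval (1 / (t p : ℝ)))) atTop
      (nhds (∑' j, w j * Q.eval (1 / (j : ℝ)))) := by
  have hb : ∀ (k j : ℕ), |(1 / (j : ℝ)) ^ k| ≤ 1 := by
    intro k j
    rw [abs_of_nonneg (by positivity)]
    apply pow_le_one₀ (by positivity)
    rcases Nat.eq_zero_or_pos j with h0 | h0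
    · rw [h0]
      simp
    · rw [div_le_one (by exact_mod_cast h0)]
      exact_mod_cast h0
  have hsum : ∀ k : ℕ, Summable (fun j => w j * (1 / (j : ℝ)) ^ k) := by
    intro k
    refine Summable.of_norm_bounded hs fun j => ?_
    rw [Real.norm_eq_abs, abs_mul, abs_of_nonneg (hw j)]
    exact mul_le_of_le_one_right (hw j) (hb k j)
  have e1 : ∀ X, av A X (fun p => Q.eval (1 / (t p : ℝ))) =
      ∑ k ∈ range (Q.natDegree + 1), Q.coeff k * av A X (fun p => (1 / (t p : ℝ)) ^ k) := by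
    intro X
    rw [← av_sum]
    congr 1
    funext p
    rw [Polynomial.eval_eq_sum_range]
  have e2 : ∑' j, w j * Q.eval (1 / (j : ℝ)) =
      ∑ k ∈ range (Q.natDegree + 1), Q.coeff k * ∑' j, w j * (1 / (j : ℝ)) ^ k := by
    have : ∀ j, w j * Q.eval (1 / (j : ℝ)) =
        ∑ k ∈ range (Q.natDegree + 1), Q.coeff k * (w j * (1 / (j : ℝ)) ^ k) := by
      intro j
      rw [Polynomial.eval_eq_sum_range, mul_sum]
      exact sum_congr rfl fun k _ => by ring
    rw [tsum_congr this, Summable.tsum_finsetSum fun k _ => (hsum k).mul_left _]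
    exact sum_congr rfl fun k _ => tsum_mul_left
  rw [e2]
  simp_rw [e1]
  refine tendsto_finsetSum _ fun k _ => ?_
  rcases Nat.eq_zero_or_pos k with h0 | h0
  · rw [h0, hQ]
    simp
  · exact (hm k h0).const_mul _

include ht in
theorem av_to_law (w : ℕ → ℝ) (hs : HasSum w 1) (hw : ∀ j, 0 ≤ w j) (hw0 : w 0 = 0)
    (hm : ∀ k : ℕ, 1 ≤ k → Tendsto (fun X => av A X (fun p => (1 / (t p : ℝ)) ^ k)) atTop
      (nhds (∑' j, w j * (1 / (j : ℝ)) ^ k))) (j : ℕ) (hj : 1 ≤ j) :
    Tendsto (fun X => av A X (fun d => if t d = j then (1 : ℝ) else 0)) atTop (nhds (w j)) := by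
  rw [Metric.tendsto_atTop]
  intro ε hε
  obtain ⟨Q0, hQ0⟩ := exists_polynomial_near_of_continuousOn 0 1 (tent j)
    (tent_cont j).continuousOn (ε / 10) (by linarith)
  set Q := Q0 - Polynomial.C (Q0.coeff 0) with hQ
  have hQc : Q.coeff 0 = 0 := by simp [hQ]
  have hnear : ∀ x ∈ Set.Icc (0 : ℝ) 1, |Q.eval x - tent j x| ≤ ε / 5 := by
    intro x hx
    have h1 := hQ0 x hx
    have h2 := hQ0 0 ⟨le_rfl, zero_le_one⟩
    rw [tent_zero j hj, sub_zero, ← Polynomial.coeff_zero_eq_eval_zero] at h2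
    rw [hQ, Polynomial.eval_sub, Polynomial.eval_C]
    rw [abs_lt] at h1 h2
    rw [abs_le]
    constructor <;> linarith [h1.1, h1.2, h2.1, h2.2]
  have hin : ∀ i : ℕ, (1 / (i : ℝ)) ∈ Set.Icc (0 : ℝ) 1 := by
    intro i
    refine ⟨by positivity, ?_⟩
    rcases Nat.eq_zero_or_pos i with h0 | h0
    · rw [h0]
      simp
    · rw [div_le_one (by exact_mod_cast h0)]
      exact_mod_cast h0
  have h1 := av_poly A t w hs.summable hw hm Q hQc
  rw [Metric.tendsto_atTop] at h1
  obtain ⟨N, hN⟩ := h1 (ε / 5) (by linarith)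
  refine ⟨N, fun X hX => ?_⟩
  have h2 := hN X hX
  rw [Real.dist_eq] at h2
  have h3 : |av A X (fun p => Q.eval (1 / (t p : ℝ))) -
      av A X (fun d => if t d = j then (1 : ℝ) else 0)| ≤ ε / 5 := by
    rw [av_sub]
    refine (av_abs A X _ (fun _ => ε / 5) fun p => ?_).trans (av_const_le A X _ (by linarith))
    have := hnear (1 / (t p : ℝ)) (hin _)
    rw [tent_inv j (t p) hj (ht p)] at this
    exact this
  have h4 : |∑' i, w i * Q.eval (1 / (i : ℝ)) - w j| ≤ ε / 5 := by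
    have hterm : ∀ i, |w i * (Q.eval (1 / (i : ℝ)) - if i = j then 1 else 0)| ≤
        w i * (ε / 5) := by
      intro i
      rcases Nat.eq_zero_or_pos i with h0 | h0
      · rw [h0, hw0]
        simp
      · rw [abs_mul, abs_of_nonneg (hw i)]
        apply mul_le_mul_of_nonneg_left _ (hw i)
        have := hnear (1 / (i : ℝ)) (hin i)
        rwa [tent_inv j i hj h0] at this
    have hsd : Summable (fun i => w i * (Q.eval (1 / (i : ℝ)) - if i = j then 1 else 0)) :=
      Summable.of_norm_bounded (hs.summable.mul_right _) fun i => by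
        rw [Real.norm_eq_abs]
        exact hterm i
    have hsj : HasSum (fun i => w i * (if i = j then (1 : ℝ) else 0)) (w j) := by
      have := hasSum_ite_eq j (w j)
      convert this using 2 with i
      by_cases hij : i = j
      · rw [hij]
        simp
      · rw [if_neg hij, if_neg hij, mul_zero]
    have e : (fun i => w i * Q.eval (1 / (i : ℝ))) = fun i =>
        w i * (Q.eval (1 / (i : ℝ)) - if i = j then 1 else 0) +
          w i * (if i = j then (1 : ℝ) else 0) := by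
      funext i
      ring
    rw [e, hsd.tsum_add hsj.summable, hsj.tsum_eq, add_sub_cancel_right]
    have hb : ∑' i, w i * (ε / 5) = ε / 5 := by
      rw [tsum_mul_right, hs.tsum_eq, one_mul]
    refine le_trans ?_ hb.le
    rw [← Real.norm_eq_abs]
    refine (norm_tsum_le_tsum_norm hsd.norm).trans ?_
    exact hsd.norm.tsum_le_tsum (fun i => by rw [Real.norm_eq_abs]; exact hterm i)
      (hs.summable.mul_right _)
  rw [abs_le] at h3 h4
  rw [abs_lt] at h2
  rw [Real.dist_eq, abs_lt]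
  constructor <;> linarith [h2.1, h2.2, h3.1, h3.2, h4.1, h4.2]

/-- the law from the frequencies -/
theorem law_iff (ht' : ∀ d, 1 ≤ t d) (s : ℕ → ℝ)
    (hA : ∀ k, Tendsto (fun X => av A X (fun d => s d ^ k) - av A X (fun d => (1 / (t d : ℝ)) ^ k))
      atTop (nhds 0))
    (w : ℕ → ℝ) (hw : ∀ j, 0 ≤ w j) (hw0 : w 0 = 0) (hs : HasSum w 1) :
    (∀ j, 1 ≤ j → Tendsto (fun X => av A X (fun d => if t d = j then (1 : ℝ) else 0)) atTop
      (nhds (w j))) ↔
      ∀ k, 1 ≤ k → Tendsto (fun X => av A X (fun d => s d ^ k)) atTop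
        (nhds (∑' j, w j / (j : ℝ) ^ k)) := by
  have e : ∀ k : ℕ, ∑' j : ℕ, w j / (j : ℝ) ^ k = ∑' j : ℕ, w j * (1 / (j : ℝ)) ^ k := by
    intro k
    apply tsum_congr
    intro j
    rw [one_div_pow]
    ring
  constructor
  · intro hP k _
    rw [e]
    have hP' : ∀ j, Tendsto (fun X => av A X (fun d => if t d = j then (1 : ℝ) else 0)) atTop
        (nhds (w j)) := by
      intro j
      rcases Nat.eq_zero_or_pos j with h0 | h0
      · rw [h0, hw0]
        have : (fun X => av A X (fun d => if t d = 0 then (1 : ℝ) else 0)) = fun _ => (0 : ℝ) := by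
          funext X
          unfold av
          rw [sum_eq_zero, zero_div]
          intro d _
          rw [if_neg (by have := ht' d; omega)]
        rw [this]
        exact tendsto_const_nhds
      · exact hP j h0
    have h1 := law_to_av A t w hw hs hP' (fun j => (1 / (j : ℝ)) ^ k) (fun j => by
      rw [abs_of_nonneg (by positivity)]
      apply pow_le_one₀ (by positivity)
      rcases Nat.eq_zero_or_pos j with h0 | h0
      · rw [h0]
        simp
      · rw [div_le_one (by exact_mod_cast h0)]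
        exact_mod_cast h0)
    have h2 := (hA k).add h1
    rw [zero_add] at h2
    refine h2.congr fun X => ?_
    ring
  · intro hF j hj
    apply av_to_law A t ht' w hs hw hw0 _ j hj
    intro k hk
    have h1 := hF k hk
    rw [e] at h1
    have h2 := h1.sub (hA k)
    rw [sub_zero] at h2
    refine h2.congr fun X => ?_
    ring

end

end Pool.Agent.Q299.PPR.Av
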