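import Mathlib

/-!
# Definitions: principal products of random tiny prime ideals in the fields of the square roots of the primes
-/

set_option autoImplicit false

namespace Pool.Agent.Q299.PPR

open Filter Finset NumberField
open scoped Classical

/-- The field generated by the square root of `d` in the real numbers. -/
noncomputable abbrev QS (d : ℕ) : IntermediateField ℚ ℝ := IntermediateField.adjoin ℚ {Real.sqrt (d : ℝ)}

theorem sqrt_integral (d : ℕ) : IsIntegral ℚ (Real.sqrt (d : ℝ)) := by
  refine ⟨Polynomial.X ^ 2 - Polynomial.C (d : ℚ), Polynomial.monic_X_pow_sub_C _ two_ne_zero, ?_⟩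
  simp

noncomputable instance (d : ℕ) : NumberField (QS d) where
  to_charZero := inferInstance
  to_finiteDimensional := by
    exact IntermediateField.adjoin.finiteDimensional (sqrt_integral d)

/-- The class number `h(d)` of the field of the square root of `d`. -/
noncomputable def h (d : ℕ) : ℕ := NumberField.classNumber (QS d)

/-- The mean value of `f p` over the primes `p ≤ X`. -/
noncomputable def mean (X : ℕ) (f : ℕ → ℝ) : ℝ :=
  (∑ p ∈ (Finset.Icc 1 X).filter Nat.Prime, f p) / (((Finset.Icc 1 X).filter Nat.Prime).card : ℝ)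

/-- The proportion of the primes `p ≤ X` for which `h(p)` is coprime to `n`.  For `n = 0` this
is the proportion `R(X)` of the primes `p ≤ X` with `h(p) = 1`. -/
noncomputable def R (n X : ℕ) : ℝ :=
  (((Finset.Icc 1 X).filter (fun p => p.Prime ∧ Nat.Coprime n (h p))).card : ℝ) /
    (((Finset.Icc 1 X).filter Nat.Prime).card : ℝ)

/-- The proportion of the primes `p ≤ X` with `h(p) = j`. -/
noncomputable def P (j X : ℕ) : ℝ :=
  (((Finset.Icc 1 X).filter (fun p => p.Prime ∧ h p = j)).card : ℝ) /
    (((Finset.Icc 1 X).filter Nat.Prime).card : ℝ)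

/-- The probability that the class of a product of `m` independent random prime ideals of `K` of
norm at most `B` is an `n`-th power in the class group. -/
noncomputable def share (K : Type) [Field K] [NumberField K] (B : ℝ) (m n : ℕ) : ℝ :=
  (Nat.card {f : Fin m → nonZeroDivisors (Ideal (𝓞 K)) //
    (∀ i, (f i : Ideal (𝓞 K)).IsPrime ∧ (Ideal.absNorm (f i : Ideal (𝓞 K)) : ℝ) ≤ B) ∧
      ∃ C : ClassGroup (𝓞 K), ClassGroup.mk0 (∏ i, f i) = C ^ n} : ℝ) /
  (Nat.card {f : Fin m → nonZeroDivisors (Ideal (𝓞 K)) //
    ∀ i, (f i : Ideal (𝓞 K)).IsPrime ∧ (Ideal.absNorm (f i : Ideal (𝓞 K)) : ℝ) ≤ B} : ℝ)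

/-- The mean value over the primes `p ≤ X` of the probability that `k` independent random products
of `M p` prime ideals of norm at most `(log p)^a` all are `n`-th powers in the class group. -/
noncomputable def F (a : ℝ) (M : ℕ → ℕ) (n k X : ℕ) : ℝ :=
  mean X (fun p => share (QS p) ((Real.log p) ^ a) (M p) n ^ k)

/-- The index of the subgroup of the `n`-th powers in the class group of the field of the square
root of `d`.  For `n = 0` it is the class number. -/
noncomputable def ind (n d : ℕ) : ℕ :=
  (powMonoidHom n : ClassGroup (𝓞 (QS d)) →* ClassGroup (𝓞 (QS d))).range.index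

end Pool.Agent.Q299.PPR
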