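import Pool.Agent.Results.MP_321647_nt.RandomWalk
import Pool.Agent.Q299.PPR.Def

/-!
# Proofs: principal products of random tiny prime ideals in the fields of the square roots of the primes
-/

set_option autoImplicit false

namespace Pool.Agent.Q299.PPR

open Filter Finset NumberField
open scoped Classical

open Pool.Agent.Results.MP_321647_nt.RandomWalk

theorem finrank_QS (p : ℕ) (hp : p.Prime) : Module.finrank ℚ (QS p) = 2 := by
  have h0 : (0 : ℝ) ≤ p := by positivity
  rw [IntermediateField.adjoin.finrank (sqrt_integral p)]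
  have h1 : (minpoly ℚ (Real.sqrt (p : ℝ))).natDegree ≤ 2 := by
    have hd : minpoly ℚ (Real.sqrt (p : ℝ)) ∣ Polynomial.X ^ 2 - Polynomial.C (p : ℚ) := by
      apply minpoly.dvd
      simp [Real.sq_sqrt h0]
    have h2 := Polynomial.natDegree_le_of_dvd hd
      (Polynomial.X_pow_sub_C_ne_zero (by norm_num) _)
    rwa [Polynomial.natDegree_X_pow_sub_C] at h2
  have h2 : 0 < (minpoly ℚ (Real.sqrt (p : ℝ))).natDegree :=
    minpoly.natDegree_pos (sqrt_integral p)
  have h3 : (minpoly ℚ (Real.sqrt (p : ℝ))).natDegree ≠ 1 := by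
    intro h
    have h4 := (minpoly.natDegree_eq_one_iff).1 h
    obtain ⟨q, hq⟩ := h4
    have h5 := hp.irrational_sqrt
    apply h5
    exact ⟨q, by simpa using hq⟩
  omega

theorem root_QS (p : ℕ) : ∃ x : QS p, x ^ 2 = (p : QS p) := by
  refine ⟨⟨Real.sqrt (p : ℝ), IntermediateField.mem_adjoin_simple_self ℚ _⟩, ?_⟩
  apply Subtype.ext
  push_cast
  exact Real.sq_sqrt (by positivity)

section

variable (K : Type) [Field K] [NumberField K] (B : ℝ)

theorem num_eq (m n : ℕ) : (Nat.card {f : Fin m → nonZeroDivisors (Ideal (𝓞 K)) //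
    (∀ i, (f i : Ideal (𝓞 K)).IsPrime ∧ (Ideal.absNorm (f i : Ideal (𝓞 K)) : ℝ) ≤ B) ∧
      ∃ C : ClassGroup (𝓞 K), ClassGroup.mk0 (∏ i, f i) = C ^ n}) =
    ∑ D ∈ (univ : Finset (ClassGroup (𝓞 K))).filter (fun D => ∃ C, D = C ^ n), walks K B m D := by
  have e1 : ∀ D : ClassGroup (𝓞 K), walks K B m D =
      ((Fintype.piFinset (fun _ : Fin m => QQ K B)).filter
        (fun f => ClassGroup.mk0 (∏ i, f i) = D)).card := by
    intro D
    unfold walks
    apply Nat.subtype_card
    intro f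
    rw [mem_filter, Fintype.mem_piFinset]
    exact and_congr (forall_congr' fun i => mem_QQ K B (f i)) Iff.rfl
  have e2 : (Nat.card {f : Fin m → nonZeroDivisors (Ideal (𝓞 K)) //
    (∀ i, (f i : Ideal (𝓞 K)).IsPrime ∧ (Ideal.absNorm (f i : Ideal (𝓞 K)) : ℝ) ≤ B) ∧
      ∃ C : ClassGroup (𝓞 K), ClassGroup.mk0 (∏ i, f i) = C ^ n}) =
      ((Fintype.piFinset (fun _ : Fin m => QQ K B)).filter
        (fun f => ∃ C : ClassGroup (𝓞 K), ClassGroup.mk0 (∏ i, f i) = C ^ n)).card := by
    apply Nat.subtype_card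
    intro f
    rw [mem_filter, Fintype.mem_piFinset]
    exact and_congr (forall_congr' fun i => mem_QQ K B (f i)) Iff.rfl
  rw [e2, sum_congr rfl fun D _ => e1 D]
  rw [card_eq_sum_card_fiberwise (f := fun f => ClassGroup.mk0 (∏ i, f i))
    (t := (univ : Finset (ClassGroup (𝓞 K))).filter (fun D => ∃ C, D = C ^ n))]
  · refine sum_congr rfl fun D hD => ?_
    congr 1
    ext f
    rw [mem_filter, mem_filter, mem_filter]
    rw [mem_filter] at hD
    constructor
    · rintro ⟨⟨h1, _⟩, h2⟩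
      exact ⟨h1, h2⟩
    · rintro ⟨h1, h2⟩
      refine ⟨⟨h1, ?_⟩, h2⟩
      rw [h2]
      exact hD.2
  · intro f hf
    rw [mem_coe, mem_filter] at hf
    rw [mem_coe, mem_filter]
    exact ⟨mem_univ _, hf.2⟩

theorem share_eq (m n : ℕ) : share K B m n =
    ∑ D ∈ (univ : Finset (ClassGroup (𝓞 K))).filter (fun D => ∃ C, D = C ^ n),
      prob K B m D := by
  unfold share prob
  rw [num_eq]
  push_cast
  rw [sum_div]
  rfl

theorem share_nonneg (m n : ℕ) : 0 ≤ share K B m n := by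
  unfold share
  positivity

theorem share_le_one (m n : ℕ) : share K B m n ≤ 1 := by
  unfold share
  apply div_le_one_of_le₀ _ (by positivity)
  have hf : Finite {f : Fin m → nonZeroDivisors (Ideal (𝓞 K)) //
      ∀ i, (f i : Ideal (𝓞 K)).IsPrime ∧ (Ideal.absNorm (f i : Ideal (𝓞 K)) : ℝ) ≤ B} := by
    have : {f : Fin m → nonZeroDivisors (Ideal (𝓞 K)) |
        ∀ i, (f i : Ideal (𝓞 K)).IsPrime ∧
          (Ideal.absNorm (f i : Ideal (𝓞 K)) : ℝ) ≤ B}.Finite := by
      refine (Finset.finite_toSet (Fintype.piFinset (fun _ : Fin m => QQ K B))).subset ?_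
      intro f hf
      rw [mem_coe, Fintype.mem_piFinset]
      exact fun i => (mem_QQ K B (f i)).2 (hf i)
    exact this.to_subtype
  exact_mod_cast Nat.card_le_card_of_injective
    (fun f : {f : Fin m → nonZeroDivisors (Ideal (𝓞 K)) //
      (∀ i, (f i : Ideal (𝓞 K)).IsPrime ∧ (Ideal.absNorm (f i : Ideal (𝓞 K)) : ℝ) ≤ B) ∧
      ∃ C : ClassGroup (𝓞 K), ClassGroup.mk0 (∏ i, f i) = C ^ n} =>
      (⟨f.1, f.2.1⟩ : {f : Fin m → nonZeroDivisors (Ideal (𝓞 K)) //
      ∀ i, (f i : Ideal (𝓞 K)).IsPrime ∧ (Ideal.absNorm (f i : Ideal (𝓞 K)) : ℝ) ≤ B}))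
    (fun f g hfg => Subtype.ext (by simpa using hfg))

end

/-- the number of the `n`-th powers is the order of the group divided by the index -/
theorem card_pow {G : Type} [CommGroup G] [Fintype G] (n : ℕ) :
    (((univ : Finset G).filter (fun D => ∃ C, D = C ^ n)).card : ℝ) / (Nat.card G : ℝ) =
      1 / ((powMonoidHom n : G →* G).range.index : ℝ) := by
  have h1 : ((univ : Finset G).filter (fun D => ∃ C, D = C ^ n)).card =
      Nat.card (powMonoidHom n : G →* G).range := by
    symm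
    apply Nat.subtype_card
    intro x
    rw [mem_filter, MonoidHom.mem_range]
    constructor
    · rintro ⟨_, C, hC⟩
      exact ⟨C, by rw [hC]; rfl⟩
    · rintro ⟨C, hC⟩
      exact ⟨mem_univ _, C, by rw [← hC]; rfl⟩
  rw [h1]
  have h2 := (powMonoidHom n : G →* G).range.card_mul_index
  have h3 : (0 : ℝ) < Nat.card (powMonoidHom n : G →* G).range := by
    exact_mod_cast Nat.card_pos
  have h4 : ((powMonoidHom n : G →* G).range.index : ℝ) ≠ 0 := by
    exact_mod_cast Subgroup.index_ne_zero_of_finite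
  rw [← h2]
  push_cast
  field_simp

/-- all elements are `n`-th powers if and only if `n` is coprime to the order of the group -/
theorem index_one {G : Type} [CommGroup G] [Fintype G] (n : ℕ) :
    (powMonoidHom n : G →* G).range.index = 1 ↔ Nat.Coprime n (Nat.card G) := by
  rw [Subgroup.index_eq_one]
  constructor
  · intro h
    have hs : Function.Surjective (fun x : G => x ^ n) := by
      intro y
      have : y ∈ (powMonoidHom n : G →* G).range := by rw [h]; trivial
      obtain ⟨x, hx⟩ := this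
      exact ⟨x, hx⟩
    have hi : Function.Injective (fun x : G => x ^ n) := Finite.injective_iff_surjective.2 hs
    by_contra hc
    obtain ⟨q, hq, hqn, hqG⟩ := Nat.Prime.not_coprime_iff_dvd.1 hc
    have : Fact q.Prime := ⟨hq⟩
    obtain ⟨x, hx⟩ := exists_prime_orderOf_dvd_card' (G := G) q hqG
    have h1 : x ^ n = 1 := orderOf_dvd_iff_pow_eq_one.1 (hx ▸ hqn)
    have h2 : x = 1 := hi (by simp [h1])
    rw [h2, orderOf_one] at hx
    exact hq.one_lt.ne hx
  · intro h
    rw [eq_top_iff]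
    intro y _
    refine ⟨(powCoprime h.symm).symm y, ?_⟩
    exact (powCoprime h.symm).apply_symm_apply y

theorem ind_one (n d : ℕ) : ind n d = 1 ↔ Nat.Coprime n (h d) := by
  unfold ind
  rw [index_one]
  unfold h NumberField.classNumber
  rw [Nat.card_eq_fintype_card]

theorem ind_pos (n d : ℕ) : 1 ≤ ind n d := by
  unfold ind
  exact Nat.one_le_iff_ne_zero.2 Subgroup.index_ne_zero_of_finite

/-- for a good prime, the share is close to the inverse of the index -/
theorem share_good (a ε : ℝ) (p m n : ℕ) (hp : p.Prime) (hg : Good a ε p)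
    (hm : 500 * (Real.log p / Real.log (Real.log p)) ≤ m) :
    |share (QS p) ((Real.log p) ^ a) m n - 1 / (ind n p : ℝ)| ≤ ε := by
  obtain ⟨_, h2, _⟩ := hg (QS p) (finrank_QS p hp) (root_QS p) m hm
  rw [share_eq]
  unfold ind
  rw [← card_pow]
  have e : (((univ : Finset (ClassGroup (𝓞 (QS p)))).filter
      (fun D => ∃ C, D = C ^ n)).card : ℝ) / (Nat.card (ClassGroup (𝓞 (QS p))) : ℝ) =
      ∑ D ∈ (univ : Finset (ClassGroup (𝓞 (QS p)))).filter (fun D => ∃ C, D = C ^ n),
        1 / (Nat.card (ClassGroup (𝓞 (QS p))) : ℝ) := by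
    rw [sum_const, nsmul_eq_mul]
    ring
  rw [e, ← sum_sub_distrib]
  refine (abs_sum_le_sum_abs _ _).trans ?_
  refine le_trans (sum_le_sum_of_subset_of_nonneg (filter_subset _ _)
    fun _ _ _ => abs_nonneg _) h2

theorem pow_diff {x y : ℝ} (hx0 : 0 ≤ x) (hx1 : x ≤ 1) (hy0 : 0 ≤ y) (hy1 : y ≤ 1) (k : ℕ) :
    |x ^ k - y ^ k| ≤ k * |x - y| := by
  induction k with
  | zero => simp
  | succ k ih =>
    have e : x ^ (k + 1) - y ^ (k + 1) = x * (x ^ k - y ^ k) + (x - y) * y ^ k := by ring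
    rw [e]
    refine (abs_add_le _ _).trans ?_
    rw [abs_mul, abs_mul, abs_of_nonneg hx0, abs_of_nonneg (pow_nonneg hy0 k)]
    have h1 : x * |x ^ k - y ^ k| ≤ 1 * |x ^ k - y ^ k| :=
      mul_le_mul_of_nonneg_right hx1 (abs_nonneg _)
    have h2 : |x - y| * y ^ k ≤ |x - y| * 1 :=
      mul_le_mul_of_nonneg_left (pow_le_one₀ hy0 hy1) (abs_nonneg _)
    push_cast
    linarith

theorem mean_bound (X : ℕ) (f g : ℕ → ℝ) (G : ℕ → Prop) (δ : ℝ) (hδ : 0 ≤ δ)
    (h1 : ∀ p, p.Prime → G p → |f p - g p| ≤ δ) (h2 : ∀ p, |f p - g p| ≤ 1) :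
    |mean X f - mean X g| ≤ δ +
      (((Finset.Icc 1 X).filter (fun d => d.Prime ∧ ¬ G d)).card : ℝ) /
        (((Finset.Icc 1 X).filter Nat.Prime).card : ℝ) := by
  unfold mean
  rw [← sub_div, ← sum_sub_distrib, abs_div, Nat.abs_cast]
  rcases Nat.eq_zero_or_pos ((Finset.Icc 1 X).filter Nat.Prime).card with h0 | h0
  · rw [h0]
    simp [hδ]
  have h0r : (0 : ℝ) < (((Finset.Icc 1 X).filter Nat.Prime).card : ℝ) := by exact_mod_cast h0
  rw [div_le_iff₀ h0r, add_mul, div_mul_cancel₀ _ h0r.ne']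
  refine (abs_sum_le_sum_abs _ _).trans ?_
  rw [← sum_filter_add_sum_filter_not _ (fun d => G d)]
  apply add_le_add
  · refine (sum_le_sum (g := fun _ => δ) fun p hp => ?_).trans ?_
    · rw [mem_filter, mem_filter] at hp
      exact h1 p hp.1.2 hp.2
    · rw [sum_const, nsmul_eq_mul, mul_comm]
      apply mul_le_mul_of_nonneg_left _ hδ
      exact_mod_cast card_le_card (filter_subset _ _)
  · refine (sum_le_sum (g := fun _ => (1 : ℝ)) fun p _ => h2 p).trans ?_
    rw [sum_const, nsmul_eq_mul, mul_one]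
    rw [filter_filter]

theorem partA (a : ℝ) (ha : 2 < a) (M : ℕ → ℕ)
    (hM : ∀ p : ℕ, p.Prime → 500 * (Real.log p / Real.log (Real.log p)) ≤ M p) (n k : ℕ) :
    Tendsto (fun X : ℕ => F a M n k X - mean X (fun p => (1 / (ind n p : ℝ)) ^ k)) atTop
      (nhds 0) := by
  rw [Metric.tendsto_atTop]
  intro ε hε
  set δ : ℝ := ε / (2 * (k + 1)) with hδ
  have hk1 : (0 : ℝ) < (k : ℝ) + 1 := by positivity
  have hδ0 : 0 < δ := by positivity
  have hal := (result a δ ha hδ0).2.1
  unfold AlmostAll at hal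
  rw [Metric.tendsto_atTop] at hal
  obtain ⟨N, hN⟩ := hal (ε / 2) (by linarith)
  refine ⟨N, fun X hX => ?_⟩
  have h1 := hN X hX
  rw [Real.dist_0_eq_abs, abs_of_nonneg (by positivity)] at h1
  rw [Real.dist_0_eq_abs]
  unfold F
  have hind : ∀ p, 0 ≤ 1 / (ind n p : ℝ) ∧ 1 / (ind n p : ℝ) ≤ 1 := by
    intro p
    have : (1 : ℝ) ≤ ind n p := by exact_mod_cast ind_pos n p
    refine ⟨by positivity, ?_⟩
    rw [div_le_one (by linarith)]
    exact this
  have hkδ : (k : ℝ) * δ ≤ ε / 2 := by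
    rw [hδ]
    rw [mul_div_assoc', div_le_div_iff₀ (by positivity) (by norm_num)]
    nlinarith
  have hfin : (k : ℝ) * δ + (((Finset.Icc 1 X).filter (fun d => d.Prime ∧ ¬ Good a δ d)).card : ℝ) /
        (((Finset.Icc 1 X).filter Nat.Prime).card : ℝ) < ε := by
    have h2 : (((Finset.Icc 1 X).filter (fun d => d.Prime ∧ ¬ Good a δ d)).card : ℝ) /
        (((Finset.Icc 1 X).filter Nat.Prime).card : ℝ) < ε / 2 := by
      convert h1
    linarith
  refine lt_of_le_of_lt (mean_bound X _ _ (Good a δ) (k * δ) (by positivity) ?_ ?_) hfin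
  · intro p hp hg
    refine (pow_diff (share_nonneg _ _ _ _) (share_le_one _ _ _ _) (hind p).1
      (hind p).2 k).trans ?_
    exact mul_le_mul_of_nonneg_left (share_good a δ p (M p) n hp hg (hM p hp)) (by positivity)
  · intro p
    have h2 : 0 ≤ share (QS p) ((Real.log p) ^ a) (M p) n ^ k :=
      pow_nonneg (share_nonneg _ _ _ _) k
    have h3 : share (QS p) ((Real.log p) ^ a) (M p) n ^ k ≤ 1 :=
      pow_le_one₀ (share_nonneg _ _ _ _) (share_le_one _ _ _ _)
    have h4 : 0 ≤ (1 / (ind n p : ℝ)) ^ k := pow_nonneg (hind p).1 k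
    have h5 : (1 / (ind n p : ℝ)) ^ k ≤ 1 := pow_le_one₀ (hind p).1 (hind p).2
    rw [abs_le]
    constructor <;> linarith

theorem R_eq (n X : ℕ) : R n X = mean X (fun p => if Nat.Coprime n (h p) then (1 : ℝ) else 0) := by
  unfold R mean
  rw [sum_ite, sum_const_zero, add_zero, sum_const, nsmul_eq_mul, mul_one, filter_filter]

theorem mean_mono (X : ℕ) (f g : ℕ → ℝ) (hfg : ∀ p, f p ≤ g p) : mean X f ≤ mean X g := by
  unfold mean
  exact div_le_div_of_nonneg_right (sum_le_sum fun p _ => hfg p) (by positivity)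

theorem mean_const_le (X : ℕ) (c : ℝ) (hc : 0 ≤ c) : mean X (fun _ => c) ≤ c := by
  unfold mean
  rw [sum_const, nsmul_eq_mul]
  rcases Nat.eq_zero_or_pos ((Finset.Icc 1 X).filter Nat.Prime).card with h0 | h0
  · rw [h0]
    simp [hc]
  · have h0r : (0 : ℝ) < (((Finset.Icc 1 X).filter Nat.Prime).card : ℝ) := by exact_mod_cast h0
    rw [mul_comm, mul_div_assoc, div_self h0r.ne', mul_one]

theorem mean_index (n k X : ℕ) :
    R n X ≤ mean X (fun p => (1 / (ind n p : ℝ)) ^ k) ∧
    mean X (fun p => (1 / (ind n p : ℝ)) ^ k) ≤ R n X + (1 - R n X) / 2 ^ k := by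
  have hterm : ∀ p, (if Nat.Coprime n (h p) then (1 : ℝ) else 0) ≤ (1 / (ind n p : ℝ)) ^ k ∧
      (1 / (ind n p : ℝ)) ^ k ≤ (if Nat.Coprime n (h p) then (1 : ℝ) else 0) * (1 - 1 / 2 ^ k) +
        1 / 2 ^ k := by
    intro p
    have h0 : (0 : ℝ) ≤ 1 / (ind n p : ℝ) := by positivity
    by_cases hc : Nat.Coprime n (h p)
    · rw [if_pos hc]
      have : ind n p = 1 := (ind_one n p).2 hc
      rw [this]
      simp
    · rw [if_neg hc]
      have h1 : ind n p ≠ 1 := fun h => hc ((ind_one n p).1 h)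
      have h2 := ind_pos n p
      have h3 : (2 : ℝ) ≤ ind n p := by exact_mod_cast (by omega : 2 ≤ ind n p)
      refine ⟨by positivity, ?_⟩
      rw [zero_mul, zero_add, ← one_div_pow]
      apply pow_le_pow_left₀ h0
      exact one_div_le_one_div_of_le (by norm_num) h3
  rw [R_eq]
  refine ⟨mean_mono X _ _ fun p => (hterm p).1, ?_⟩
  refine (mean_mono X _ _ fun p => (hterm p).2).trans ?_
  have e : mean X (fun p => (if Nat.Coprime n (h p) then (1 : ℝ) else 0) * (1 - 1 / 2 ^ k) +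
      1 / 2 ^ k) = mean X (fun p => if Nat.Coprime n (h p) then (1 : ℝ) else 0) *
        (1 - 1 / 2 ^ k) + mean X (fun _ => (1 : ℝ) / 2 ^ k) := by
    unfold mean
    rw [sum_add_distrib, add_div, ← sum_mul]
    ring
  rw [e]
  have h1 := mean_const_le X ((1 : ℝ) / 2 ^ k) (by positivity)
  have e2 : ∀ r : ℝ, r * (1 - 1 / 2 ^ k) + 1 / 2 ^ k = r + (1 - r) / 2 ^ k := by
    intro r
    ring
  rw [← e2]
  linarith

theorem R_nonneg (n X : ℕ) : 0 ≤ R n X := by
  unfold R
  positivity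

theorem partB (a : ℝ) (ha : 2 < a) (M : ℕ → ℕ)
    (hM : ∀ p : ℕ, p.Prime → 500 * (Real.log p / Real.log (Real.log p)) ≤ M p) (n k : ℕ)
    (ε : ℝ) (hε : 0 < ε) :
    ∀ᶠ X : ℕ in atTop, R n X - ε ≤ F a M n k X ∧
      F a M n k X ≤ R n X + (1 - R n X) / 2 ^ k + ε := by
  have h1 := partA a ha M hM n k
  rw [Metric.tendsto_atTop] at h1
  obtain ⟨N, hN⟩ := h1 ε hε
  filter_upwards [eventually_ge_atTop N] with X hX
  have h2 := hN X hX
  rw [Real.dist_0_eq_abs, abs_lt] at h2
  obtain ⟨h3, h4⟩ := mean_index n k X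
  constructor <;> linarith [h2.1, h2.2]

theorem partC (a : ℝ) (ha : 2 < a) (M : ℕ → ℕ)
    (hM : ∀ p : ℕ, p.Prime → 500 * (Real.log p / Real.log (Real.log p)) ≤ M p) (n : ℕ) (c : ℝ) :
    Tendsto (R n) atTop (nhds c) ↔
      ∀ ε : ℝ, 0 < ε → ∀ᶠ k in atTop, ∀ᶠ X in atTop, |F a M n k X - c| ≤ ε := by
  have key : ∀ ε : ℝ, 0 < ε → ∀ᶠ k in atTop, ∀ᶠ X in atTop, |F a M n k X - R n X| ≤ ε := by
    intro ε hε
    obtain ⟨k0, hk0⟩ := exists_pow_lt_of_lt_one (show (0 : ℝ) < ε / 2 by linarith)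
      (show (1 / 2 : ℝ) < 1 by norm_num)
    filter_upwards [eventually_ge_atTop k0] with k hk
    filter_upwards [partB a ha M hM n k (ε / 2) (by linarith)] with X hX
    have h1 : (1 / 2 : ℝ) ^ k ≤ (1 / 2 : ℝ) ^ k0 :=
      pow_le_pow_of_le_one (by norm_num) (by norm_num) hk
    have h2 : (1 - R n X) / 2 ^ k ≤ (1 / 2 : ℝ) ^ k := by
      rw [one_div_pow]
      apply div_le_div_of_nonneg_right _ (by positivity)
      linarith [R_nonneg n X]
    rw [abs_le]
    constructor <;> linarith [hX.1, hX.2]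
  constructor
  · intro hR ε hε
    rw [Metric.tendsto_atTop] at hR
    obtain ⟨N, hN⟩ := hR (ε / 2) (by linarith)
    filter_upwards [key (ε / 2) (by linarith)] with k hk
    filter_upwards [hk, eventually_ge_atTop N] with X hX hXN
    have h1 := hN X hXN
    rw [Real.dist_eq] at h1
    have e : F a M n k X - c = (F a M n k X - R n X) + (R n X - c) := by ring
    rw [e]
    refine (abs_add_le _ _).trans ?_
    linarith
  · intro hF
    rw [Metric.tendsto_atTop]
    intro ε hε
    have h1 := (hF (ε / 3) (by linarith)).and (key (ε / 3) (by linarith))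
    obtain ⟨k, hk1, hk2⟩ := h1.exists
    obtain ⟨N, hN⟩ := eventually_atTop.1 (hk1.and hk2)
    refine ⟨N, fun X hX => ?_⟩
    obtain ⟨h3, h4⟩ := hN X hX
    rw [Real.dist_eq]
    have e : R n X - c = (F a M n k X - c) - (F a M n k X - R n X) := by ring
    rw [e]
    refine lt_of_le_of_lt (abs_sub _ _) ?_
    linarith

theorem mean_sub (X : ℕ) (f g : ℕ → ℝ) : mean X f - mean X g = mean X (fun p => f p - g p) := by
  unfold mean
  rw [← sub_div, ← sum_sub_distrib]

theorem mean_abs (X : ℕ) (f g : ℕ → ℝ) (hfg : ∀ p, |f p| ≤ g p) : |mean X f| ≤ mean X g := by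
  unfold mean
  rw [abs_div, Nat.abs_cast]
  exact div_le_div_of_nonneg_right
    ((abs_sum_le_sum_abs _ _).trans (sum_le_sum fun p _ => hfg p)) (by positivity)

theorem mean_sum {ι : Type} (X : ℕ) (s : Finset ι) (f : ι → ℕ → ℝ) (c : ι → ℝ) :
    mean X (fun p => ∑ j ∈ s, c j * f j p) = ∑ j ∈ s, c j * mean X (f j) := by
  unfold mean
  rw [sum_comm, sum_div]
  refine sum_congr rfl fun j _ => ?_
  rw [← mul_sum, mul_div_assoc]

theorem P_eq (j X : ℕ) : P j X = mean X (fun p => if h p = j then (1 : ℝ) else 0) := by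
  unfold P mean
  rw [sum_ite, sum_const_zero, add_zero, sum_const, nsmul_eq_mul, mul_one, filter_filter]

theorem h_pos (p : ℕ) : 1 ≤ h p := by
  unfold h NumberField.classNumber
  exact Fintype.card_pos

theorem mean_decomp (s : Finset ℕ) (g : ℕ → ℝ) (hg : ∀ j, |g j| ≤ 1) (X : ℕ) :
    |mean X (fun p => g (h p)) - ∑ j ∈ s, g j * P j X| ≤ 1 - ∑ j ∈ s, P j X := by
  have e1 : ∑ j ∈ s, g j * P j X =
      mean X (fun p => ∑ j ∈ s, g j * (if h p = j then (1 : ℝ) else 0)) := by
    rw [mean_sum]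
    exact sum_congr rfl fun j _ => by rw [P_eq]
  have e2 : ∑ j ∈ s, P j X =
      mean X (fun p => ∑ j ∈ s, (1 : ℝ) * (if h p = j then (1 : ℝ) else 0)) := by
    rw [mean_sum]
    exact sum_congr rfl fun j _ => by rw [P_eq, one_mul]
  rw [e1, e2, mean_sub]
  have h1 : mean X (fun p => 1 - ∑ j ∈ s, (1 : ℝ) * (if h p = j then (1 : ℝ) else 0)) ≤
      1 - mean X (fun p => ∑ j ∈ s, (1 : ℝ) * (if h p = j then (1 : ℝ) else 0)) := by
    rw [← mean_sub]
    linarith [mean_const_le X 1 (by norm_num)]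
  refine (mean_abs X _ _ fun p => ?_).trans h1
  by_cases hs : h p ∈ s
  · rw [sum_eq_single_of_mem (h p) hs, sum_eq_single_of_mem (h p) hs]
    · simp
    · intro b _ hb
      rw [if_neg (Ne.symm hb), mul_zero]
    · intro b _ hb
      rw [if_neg (Ne.symm hb), mul_zero]
  · rw [sum_eq_zero, sum_eq_zero]
    · rw [sub_zero, sub_zero]
      exact hg (h p)
    · intro b hb
      have hne : ¬ h p = b := fun e => hs (by rw [e]; exact hb)
      rw [if_neg hne, mul_zero]
    · intro b hb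
      have hne : ¬ h p = b := fun e => hs (by rw [e]; exact hb)
      rw [if_neg hne, mul_zero]

theorem law_to_mean (w : ℕ → ℝ) (hw : ∀ j, 0 ≤ w j) (hs : HasSum w 1)
    (hP : ∀ j, Tendsto (fun X => P j X) atTop (nhds (w j))) (g : ℕ → ℝ) (hg : ∀ j, |g j| ≤ 1) :
    Tendsto (fun X => mean X (fun p => g (h p))) atTop (nhds (∑' j, w j * g j)) := by
  have hsum : Summable (fun j => w j * g j) := by
    refine Summable.of_norm_bounded hs.summable fun j => ?_
    rw [Real.norm_eq_abs, abs_mul, abs_of_nonneg (hw j)]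
    exact mul_le_of_le_one_right (hw j) (hg j)
  rw [Metric.tendsto_atTop]
  intro ε hε
  -- a large finite set
  obtain ⟨s, hs1⟩ : ∃ s : Finset ℕ, 1 - ε / 8 < ∑ j ∈ s, w j := by
    have := (hs.eventually (lt_mem_nhds (show 1 - ε / 8 < 1 by linarith))).exists
    exact this
  have hs2 : |∑' j, w j * g j - ∑ j ∈ s, w j * g j| ≤ ε / 8 := by
    rw [← hsum.sum_add_tsum_subtype_compl s, add_sub_cancel_left]
    have hsc : Summable (fun j : {x // x ∉ s} => w j) := hs.summable.subtype _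
    have hscg : Summable (fun j : {x // x ∉ s} => w j * g j) := hsum.subtype _
    have h2 : ∑' j : {x // x ∉ s}, w j ≤ ε / 8 := by
      have h3 := hs.summable.sum_add_tsum_subtype_compl s
      rw [hs.tsum_eq] at h3
      linarith
    refine le_trans ?_ h2
    rw [← Real.norm_eq_abs]
    refine (norm_tsum_le_tsum_norm hscg.norm).trans ?_
    refine hscg.norm.tsum_le_tsum (fun j => ?_) hsc
    rw [Real.norm_eq_abs, abs_mul, abs_of_nonneg (hw j)]
    exact mul_le_of_le_one_right (hw j) (hg j)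
  have h1 : Tendsto (fun X => ∑ j ∈ s, P j X) atTop (nhds (∑ j ∈ s, w j)) :=
    tendsto_finsetSum _ fun j _ => hP j
  have h2 : Tendsto (fun X => ∑ j ∈ s, g j * P j X) atTop (nhds (∑ j ∈ s, g j * w j)) :=
    tendsto_finsetSum _ fun j _ => (hP j).const_mul (g j)
  rw [Metric.tendsto_atTop] at h1 h2
  obtain ⟨N1, hN1⟩ := h1 (ε / 8) (by linarith)
  obtain ⟨N2, hN2⟩ := h2 (ε / 8) (by linarith)
  refine ⟨max N1 N2, fun X hX => ?_⟩
  have h3 := hN1 X ((le_max_left _ _).trans hX)
  have h4 := hN2 X ((le_max_right _ _).trans hX)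
  have h5 := mean_decomp s g hg X
  have h6 : ∑ j ∈ s, g j * w j = ∑ j ∈ s, w j * g j := sum_congr rfl fun j _ => mul_comm _ _
  rw [h6] at h4
  rw [Real.dist_eq, abs_lt] at h3 h4
  rw [abs_le] at h5 hs2
  rw [Real.dist_eq, abs_lt]
  constructor <;> linarith [h3.1, h3.2, h4.1, h4.2, h5.1, h5.2, hs2.1, hs2.2]

/-- a tent function: it is 1 at 1/j and 0 at 0 and at all other 1/i -/
noncomputable def tent (j : ℕ) (x : ℝ) : ℝ := max 0 (1 - |x - 1 / j| * (j * (j + 1)))

theorem tent_zero (j : ℕ) (hj : 1 ≤ j) : tent j 0 = 0 := by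
  have hj1 : (1 : ℝ) ≤ j := by exact_mod_cast hj
  unfold tent
  apply max_eq_left
  rw [zero_sub, abs_neg, abs_of_nonneg (by positivity)]
  have : 1 / (j : ℝ) * (j * (j + 1)) = j + 1 := by field_simp
  rw [this]
  linarith

theorem tent_inv (j i : ℕ) (hj : 1 ≤ j) (hi : 1 ≤ i) :
    tent j (1 / (i : ℝ)) = if i = j then 1 else 0 := by
  have hj1 : (1 : ℝ) ≤ j := by exact_mod_cast hj
  have hi1 : (1 : ℝ) ≤ i := by exact_mod_cast hi
  unfold tent
  split_ifs with hij
  · rw [hij]
    simp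
  · apply max_eq_left
    have e : (1 : ℝ) / i - 1 / j = (j - i) / (i * j) := by field_simp
    rw [e, abs_div, abs_of_nonneg (show (0 : ℝ) ≤ i * j by positivity)]
    have h1 : (i : ℝ) * j ≤ |(j : ℝ) - i| * (j * (j + 1)) := by
      rcases Nat.lt_or_gt_of_ne hij with h | h
      · have h2 : (i : ℝ) + 1 ≤ j := by exact_mod_cast h
        rw [abs_of_nonneg (by linarith)]
        nlinarith [mul_nonneg (show (0 : ℝ) ≤ j by linarith) (show (0 : ℝ) ≤ j - i - 1 by linarith),
          mul_nonneg (show (0 : ℝ) ≤ j * (j + 1) by positivity)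
            (show (0 : ℝ) ≤ j - i - 1 by linarith)]
      · have h2 : (j : ℝ) + 1 ≤ i := by exact_mod_cast h
        rw [abs_of_nonpos (by linarith)]
        have h3 : (0 : ℝ) ≤ (j : ℝ) * (j * (i - j - 1)) := by
          apply mul_nonneg (by linarith)
          exact mul_nonneg (by linarith) (by linarith)
        nlinarith
    rw [sub_nonpos, div_mul_eq_mul_div, le_div_iff₀ (by positivity), one_mul]
    exact h1

theorem tent_cont (j : ℕ) : Continuous (tent j) := by
  unfold tent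
  fun_prop

/-- convergence of the means of a polynomial without constant term -/
theorem mean_poly (w : ℕ → ℝ) (hs : Summable w) (hw : ∀ j, 0 ≤ w j)
    (hm : ∀ k : ℕ, 1 ≤ k → Tendsto (fun X => mean X (fun p => (1 / (h p : ℝ)) ^ k)) atTop
      (nhds (∑' j, w j * (1 / (j : ℝ)) ^ k))) (Q : Polynomial ℝ) (hQ : Q.coeff 0 = 0) :
    Tendsto (fun X => mean X (fun p => Q.eval (1 / (h p : ℝ)))) atTop
      (nhds (∑' j, w j * Q.eval (1 / (j : ℝ)))) := by
  have hb : ∀ (k j : ℕ), |(1 / (j : ℝ)) ^ k| ≤ 1 := by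
    intro k j
    rw [abs_of_nonneg (by positivity)]
    apply pow_le_one₀ (by positivity)
    rcases Nat.eq_zero_or_pos j with h0 | h0
    · rw [h0]
      simp
    · rw [div_le_one (by exact_mod_cast h0)]
      exact_mod_cast h0
  have hsum : ∀ k : ℕ, Summable (fun j => w j * (1 / (j : ℝ)) ^ k) := by
    intro k
    refine Summable.of_norm_bounded hs fun j => ?_
    rw [Real.norm_eq_abs, abs_mul, abs_of_nonneg (hw j)]
    exact mul_le_of_le_one_right (hw j) (hb k j)
  have e1 : ∀ X, mean X (fun p => Q.eval (1 / (h p : ℝ))) =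
      ∑ k ∈ range (Q.natDegree + 1), Q.coeff k * mean X (fun p => (1 / (h p : ℝ)) ^ k) := by
    intro X
    rw [← mean_sum]
    congr 1
    funext p
    rw [Polynomial.eval_eq_sum_range]
  have e2 : ∑' j, w j * Q.eval (1 / (j : ℝ)) =
      ∑ k ∈ range (Q.natDegree + 1), Q.coeff k * ∑' j, w j * (1 / (j : ℝ)) ^ k := by
    have : ∀ j, w j * Q.eval (1 / (j : ℝ)) =
        ∑ k ∈ range (Q.natDegree + 1), Q.coeff k * (w j * (1 / (j : ℝ)) ^ k) := by
      intro j
      rw [Polynomial.eval_eq_sum_range, mul_sum]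
      exact sum_congr rfl fun k _ => by ring
    rw [tsum_congr this, Summable.tsum_finsetSum fun k _ => (hsum k).mul_left _]
    exact sum_congr rfl fun k _ => tsum_mul_left
  rw [e2]
  simp_rw [e1]
  refine tendsto_finsetSum _ fun k _ => ?_
  rcases Nat.eq_zero_or_pos k with h0 | h0
  · rw [h0, hQ]
    simp
  · exact (hm k h0).const_mul _

theorem mean_to_law (w : ℕ → ℝ) (hs : HasSum w 1) (hw : ∀ j, 0 ≤ w j) (hw0 : w 0 = 0)
    (hm : ∀ k : ℕ, 1 ≤ k → Tendsto (fun X => mean X (fun p => (1 / (h p : ℝ)) ^ k)) atTop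
      (nhds (∑' j, w j * (1 / (j : ℝ)) ^ k))) (j : ℕ) (hj : 1 ≤ j) :
    Tendsto (fun X => P j X) atTop (nhds (w j)) := by
  rw [Metric.tendsto_atTop]
  intro ε hε
  obtain ⟨Q0, hQ0⟩ := exists_polynomial_near_of_continuousOn 0 1 (tent j)
    (tent_cont j).continuousOn (ε / 10) (by linarith)
  set Q := Q0 - Polynomial.C (Q0.coeff 0) with hQ
  have hQc : Q.coeff 0 = 0 := by simp [hQ]
  have hnear : ∀ x ∈ Set.Icc (0 : ℝ) 1, |Q.eval x - tent j x| ≤ ε / 5 := by
    intro x hx
    have h1 := hQ0 x hx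
    have h2 := hQ0 0 ⟨le_rfl, zero_le_one⟩
    rw [tent_zero j hj, sub_zero, ← Polynomial.coeff_zero_eq_eval_zero] at h2
    rw [hQ, Polynomial.eval_sub, Polynomial.eval_C]
    rw [abs_lt] at h1 h2
    rw [abs_le]
    constructor <;> linarith [h1.1, h1.2, h2.1, h2.2]
  have hin : ∀ i : ℕ, (1 / (i : ℝ)) ∈ Set.Icc (0 : ℝ) 1 := by
    intro i
    refine ⟨by positivity, ?_⟩
    rcases Nat.eq_zero_or_pos i with h0 | h0
    · rw [h0]
      simp
    · rw [div_le_one (by exact_mod_cast h0)]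
      exact_mod_cast h0
  have h1 := mean_poly w hs.summable hw hm Q hQc
  rw [Metric.tendsto_atTop] at h1
  obtain ⟨N, hN⟩ := h1 (ε / 5) (by linarith)
  refine ⟨N, fun X hX => ?_⟩
  have h2 := hN X hX
  rw [Real.dist_eq] at h2
  -- the empirical side
  have h3 : |mean X (fun p => Q.eval (1 / (h p : ℝ))) - P j X| ≤ ε / 5 := by
    rw [P_eq, mean_sub]
    refine (mean_abs X _ (fun _ => ε / 5) fun p => ?_).trans (mean_const_le X _ (by linarith))
    have := hnear (1 / (h p : ℝ)) (hin _)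
    rw [tent_inv j (h p) hj (h_pos p)] at this
    exact this
  -- the limit side
  have h4 : |∑' i, w i * Q.eval (1 / (i : ℝ)) - w j| ≤ ε / 5 := by
    have hterm : ∀ i, |w i * (Q.eval (1 / (i : ℝ)) - if i = j then 1 else 0)| ≤
        w i * (ε / 5) := by
      intro i
      rcases Nat.eq_zero_or_pos i with h0 | h0
      · rw [h0, hw0]
        simp
      · rw [abs_mul, abs_of_nonneg (hw i)]
        apply mul_le_mul_of_nonneg_left _ (hw i)
        have := hnear (1 / (i : ℝ)) (hin i)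
        rwa [tent_inv j i hj h0] at this
    have hsd : Summable (fun i => w i * (Q.eval (1 / (i : ℝ)) - if i = j then 1 else 0)) :=
      Summable.of_norm_bounded (hs.summable.mul_right _) fun i => by
        rw [Real.norm_eq_abs]
        exact hterm i
    have hsj : HasSum (fun i => w i * (if i = j then (1 : ℝ) else 0)) (w j) := by
      have := hasSum_ite_eq j (w j)
      convert this using 2 with i
      by_cases hij : i = j
      · rw [hij]
        simp
      · rw [if_neg hij, if_neg hij, mul_zero]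
    have e : (fun i => w i * Q.eval (1 / (i : ℝ))) = fun i =>
        w i * (Q.eval (1 / (i : ℝ)) - if i = j then 1 else 0) +
          w i * (if i = j then (1 : ℝ) else 0) := by
      funext i
      ring
    rw [e, hsd.tsum_add hsj.summable, hsj.tsum_eq, add_sub_cancel_right]
    have hb : ∑' i, w i * (ε / 5) = ε / 5 := by
      rw [tsum_mul_right, hs.tsum_eq, one_mul]
    refine le_trans ?_ hb.le
    rw [← Real.norm_eq_abs]
    refine (norm_tsum_le_tsum_norm hsd.norm).trans ?_
    exact hsd.norm.tsum_le_tsum (fun i => by rw [Real.norm_eq_abs]; exact hterm i)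
      (hs.summable.mul_right _)
  rw [abs_le] at h3 h4
  rw [abs_lt] at h2
  rw [Real.dist_eq, abs_lt]
  constructor <;> linarith [h2.1, h2.2, h3.1, h3.2, h4.1, h4.2]

theorem P_zero (X : ℕ) : P 0 X = 0 := by
  unfold P
  have : (Finset.Icc 1 X).filter (fun p => p.Prime ∧ h p = 0) = ∅ := by
    apply filter_eq_empty_iff.2
    intro p _ hp
    have := h_pos p
    omega
  rw [this]
  simp

theorem ind_zero (p : ℕ) : ind 0 p = h p := by
  unfold ind h NumberField.classNumber
  have : (powMonoidHom 0 : ClassGroup (𝓞 (QS p)) →* ClassGroup (𝓞 (QS p))).range = ⊥ := by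
    rw [eq_bot_iff]
    rintro x ⟨y, rfl⟩
    rw [Subgroup.mem_bot, powMonoidHom_apply, pow_zero]
  rw [this, Subgroup.index_bot, Nat.card_eq_fintype_card]

theorem partD (a : ℝ) (ha : 2 < a) (M : ℕ → ℕ)
    (hM : ∀ p : ℕ, p.Prime → 500 * (Real.log p / Real.log (Real.log p)) ≤ M p)
    (w : ℕ → ℝ) (hw : ∀ j, 0 ≤ w j) (hw0 : w 0 = 0) (hs : HasSum w 1) :
    (∀ j, 1 ≤ j → Tendsto (P j) atTop (nhds (w j))) ↔
      ∀ k, 1 ≤ k → Tendsto (F a M 0 k) atTop (nhds (∑' j, w j / (j : ℝ) ^ k)) := by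
  have e : ∀ k : ℕ, ∑' j : ℕ, w j / (j : ℝ) ^ k = ∑' j : ℕ, w j * (1 / (j : ℝ)) ^ k := by
    intro k
    apply tsum_congr
    intro j
    rw [one_div_pow]
    ring
  have hA : ∀ k, Tendsto (fun X : ℕ => F a M 0 k X - mean X (fun p => (1 / (h p : ℝ)) ^ k))
      atTop (nhds 0) := by
    intro k
    have := partA a ha M hM 0 k
    simp_rw [ind_zero] at this
    exact this
  constructor
  · intro hP k _
    rw [e]
    have hP' : ∀ j, Tendsto (fun X => P j X) atTop (nhds (w j)) := by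
      intro j
      rcases Nat.eq_zero_or_pos j with h0 | h0
      · rw [h0, hw0]
        simp_rw [P_zero]
        exact tendsto_const_nhds
      · exact hP j h0
    have h1 := law_to_mean w hw hs hP' (fun j => (1 / (j : ℝ)) ^ k) (fun j => by
      rw [abs_of_nonneg (by positivity)]
      apply pow_le_one₀ (by positivity)
      rcases Nat.eq_zero_or_pos j with h0 | h0
      · rw [h0]
        simp
      · rw [div_le_one (by exact_mod_cast h0)]
        exact_mod_cast h0)
    have h2 := (hA k).add h1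
    rw [zero_add] at h2
    refine h2.congr fun X => ?_
    ring
  · intro hF j hj
    apply mean_to_law w hs hw hw0 _ j hj
    intro k hk
    have h1 := hF k hk
    rw [e] at h1
    have h2 := h1.sub (hA k)
    rw [sub_zero] at h2
    refine h2.congr fun X => ?_
    ring

end Pool.Agent.Q299.PPR
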