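import Pool.Agent.Q299.PPR.Def

/-!
# Definitions: the law of the class group of the field of the square root of a prime
-/

set_option autoImplicit false

namespace Pool.Agent.Q299.PPR

open Filter Finset NumberField
open scoped Classical

/-- The index of the subgroup of the `n`-th powers in the group `G`.  For `n = 0` it is the order
of `G`. -/
noncomputable def gind (G : Type) [CommGroup G] (n : ℕ) : ℕ :=
  (powMonoidHom n : G →* G).range.index

/-- The proportion of the primes `p ≤ X` for which the class group of the field of the square root
of `p` is isomorphic to `G`. -/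
noncomputable def PG (G : Type) [CommGroup G] (X : ℕ) : ℝ :=
  (((Finset.Icc 1 X).filter (fun p => p.Prime ∧ Nonempty (ClassGroup (𝓞 (QS p)) ≃* G))).card : ℝ) /
    (((Finset.Icc 1 X).filter Nat.Prime).card : ℝ)

/-- The mean value over the primes `p ≤ X` of the probability that among independent random
products of `M p` prime ideals of norm at most `(log p)^a` the first `κ n₁` have classes that are
`n₁`-th powers, the next `κ n₂` have classes that are `n₂`-th powers, and so on, where `n₁`, `n₂`,
... are the elements of `S`. -/
noncomputable def FS (a : ℝ) (M : ℕ → ℕ) (S : Finset ℕ) (κ : ℕ → ℕ) (X : ℕ) : ℝ :=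
  mean X (fun p => ∏ n ∈ S, share (QS p) ((Real.log p) ^ a) (M p) n ^ κ n)

end Pool.Agent.Q299.PPR
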