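import Pool.Agent.Q299.PPR.DefS

/-!
# Definitions: the p-parts of the class groups of the real quadratic fields
-/

set_option autoImplicit false

namespace Pool.Agent.Q299.PPR

open Filter Finset NumberField
open scoped Classical

/-- The `p`-part of a commutative group: the subgroup of the elements that are killed by a power
of `p`. -/
def ppart (p : ℕ) (G : Type) [CommGroup G] : Subgroup G :=
  Subgroup.closure {g | ∃ k : ℕ, g ^ (p ^ k) = 1}

/-- The class group of the field of the square root of `d`. -/
def Cl (d : ℕ) : Type := ClassGroup (𝓞 (QS d))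

noncomputable instance (d : ℕ) : CommGroup (Cl d) :=
  inferInstanceAs (CommGroup (ClassGroup (𝓞 (QS d))))

/-- The `p`-part of the class group of the field of the square root of `d` is isomorphic to `H`. -/
def IsoPart (p d : ℕ) (H : Type) [CommGroup H] : Prop := Nonempty (ppart p (Cl d) ≃* H)

/-- The number of the elements `g` with `g ^ n = 1` of the group `G`. -/
noncomputable def gtor (n : ℕ) (G : Type) [CommGroup G] : ℕ := Nat.card {g : G // g ^ n = 1}

/-- The proportion, among the real quadratic fields of discriminant less than `X`, of those whose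
class group has a `p`-part isomorphic to `H`. -/
noncomputable def PPt (p : ℕ) (H : Type) [CommGroup H] (X : ℕ) : ℝ :=
  (((rads X).filter (fun d => IsoPart p d H)).card : ℝ) /
    ((rads X).card : ℝ)

/-- The average over the real quadratic fields of discriminant less than `X` of the probability
that of independent products of `M d` independent random prime ideals of norm at most `(log d)^a`,
`κ j` products for every `j` in `S`, those that belong to `j` have a class that is a `p ^ j`-th
power in the class group. -/
noncomputable def FP (a : ℝ) (M : ℕ → ℕ) (p : ℕ) (S : Finset ℕ) (κ : ℕ → ℕ) (X : ℕ) : ℝ :=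
  avg X (fun d => ∏ j ∈ S, share (QS d) ((Real.log d) ^ a) (M d) (p ^ j) ^ κ j)

/-- The groups `G i` are pairwise non-isomorphic finite `p`-groups and `w` is a probability law on
the indices. -/
def Family (p : ℕ) (G : ℕ → Type) [∀ i, CommGroup (G i)] (w : ℕ → ℝ) : Prop :=
  (∀ i, Finite (G i)) ∧ (∀ i, IsPGroup p (G i)) ∧ (∀ i j, Nonempty (G i ≃* G j) → i = j) ∧
    (∀ i, 0 ≤ w i) ∧ HasSum w 1

/-- The proportion with `p`-part isomorphic to `G i` tends to `w i` for every `i`. -/
def LawP (p : ℕ) (G : ℕ → Type) [∀ i, CommGroup (G i)] (w : ℕ → ℝ) : Prop :=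
  ∀ i, Tendsto (PPt p (G i)) atTop (nhds (w i))

/-- The averages `FP a M p S κ` tend to the sum over `i` of `w i` times the product over `j` in `S`
of the `κ j`-th powers of the inverses of the numbers of the elements of `G i` killed by `p ^ j`. -/
def FreqP (a : ℝ) (M : ℕ → ℕ) (p : ℕ) (G : ℕ → Type) [∀ i, CommGroup (G i)] (w : ℕ → ℝ) : Prop :=
  ∀ (S : Finset ℕ) (κ : ℕ → ℕ), Tendsto (FP a M p S κ) atTop
    (nhds (∑' i, w i * ∏ j ∈ S, (1 / (gtor (p ^ j) (G i) : ℝ)) ^ κ j))

end Pool.Agent.Q299.PPR
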