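import Pool.Agent.Q299.PPR.Def

/-!
# Definitions: the fields of the square roots of the squarefree numbers, ordered by their discriminants
-/

set_option autoImplicit false

namespace Pool.Agent.Q299.PPR

open Filter Finset NumberField
open scoped Classical

/-- The discriminant of the field of the square root of the squarefree number `d > 1`. -/
def disc (d : ℕ) : ℕ := if d % 4 = 1 then d else 4 * d

/-- The squarefree numbers `d > 1` for which the field of the square root of `d` has discriminant
less than `X`.  The numbers `disc d` are the fundamental discriminants `0 < D < X`. -/
noncomputable def rads (X : ℕ) : Finset ℕ :=
  (Finset.Ico 2 X).filter (fun d => Squarefree d ∧ disc d < X)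

/-- The mean value of `f` over the real quadratic fields of discriminant less than `X`. -/
noncomputable def avg (X : ℕ) (f : ℕ → ℝ) : ℝ := (∑ d ∈ rads X, f d) / ((rads X).card : ℝ)

/-- The number of the elements `c` with `c ^ n = 1` of the class group of the field of the square
root of `d`. -/
noncomputable def tor (n d : ℕ) : ℕ := Nat.card {c : ClassGroup (𝓞 (QS d)) // c ^ n = 1}

/-- Let products of `M d` independent random prime ideals of norm at most `(log d)^a` be drawn
independently.  The mean value of the minimum of `K` and of the number of the draws up to and
including the first product whose class is an `n`-th power in the class group: the sum over `k < K`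
of the probabilities that none of the first `k` products has such a class. -/
noncomputable def wait (a : ℝ) (M : ℕ → ℕ) (n K d : ℕ) : ℝ :=
  ∑ k ∈ Finset.range K, (1 - share (QS d) ((Real.log d) ^ a) (M d) n) ^ k

end Pool.Agent.Q299.PPR
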