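import Mathlib

/-!
# Finite abelian groups with the same indices of the subgroups of the `n`-th powers are isomorphic
-/

set_option autoImplicit false

namespace Pool.Agent.Q299.PPR.Iso

open Finset

/-- dropping the trivial factors -/
theorem drop (ι : Type) (p e : ι → ℕ) : Nonempty
    (((i : ι) → ZMod (p i ^ e i)) ≃+ ((i : {i : ι // e i ≠ 0}) → ZMod (p i ^ e i))) := by
  classical
  refine ⟨{ toFun := fun f i => f i
            invFun := fun g i => if h : e i ≠ 0 then g ⟨i, h⟩ else 0
            left_inv := ?_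
            right_inv := ?_
            map_add' := fun f g => rfl }⟩
  · intro f
    funext i
    by_cases h : e i ≠ 0
    · simp only [h, not_false_eq_true, dif_pos, ne_eq]
    · have : Subsingleton (ZMod (p i ^ e i)) := by
        rw [not_not.1 h, pow_zero]
        infer_instance
      exact Subsingleton.elim _ _
  · intro g
    funext i
    simp only [i.2, not_false_eq_true, dif_pos, ne_eq]

theorem dec (G : Type) [CommGroup G] [Finite G] :
    ∃ (ι : Type) (_ : Fintype ι) (p e : ι → ℕ), (∀ i, (p i).Prime) ∧ (∀ i, e i ≠ 0) ∧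
      Nonempty (Additive G ≃+ ((i : ι) → ZMod (p i ^ e i))) := by
  classical
  obtain ⟨ι, hι, p, hp, e, ⟨f⟩⟩ := AddCommGroup.equiv_directSum_zmod_of_finite (Additive G)
  obtain ⟨d⟩ := drop ι p e
  exact ⟨{i : ι // e i ≠ 0}, inferInstance, fun i => p i, fun i => e i, fun i => hp i,
    fun i => i.2, ⟨f.trans ((DirectSum.addEquivProd _).trans d)⟩⟩

theorem index_eq (G : Type) [CommGroup G] [Finite G] (ι : Type) [Fintype ι] (p e : ι → ℕ)
    (hp : ∀ i, (p i).Prime) (f : Additive G ≃+ ((i : ι) → ZMod (p i ^ e i))) (n : ℕ) :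
    (powMonoidHom n : G →* G).range.index = ∏ i, (p i ^ e i).gcd n := by
  have hne : ∀ i, NeZero (p i ^ e i) := fun i => ⟨(pow_pos (hp i).pos _).ne'⟩
  rw [Subgroup.index_range]
  have e1 : Nat.card (powMonoidHom n : G →* G).ker =
      Nat.card {x : (i : ι) → ZMod (p i ^ e i) // n • x = 0} := by
    apply Nat.card_congr
    refine Equiv.subtypeEquiv (Additive.ofMul.trans f.toEquiv) ?_
    intro x
    rw [MonoidHom.mem_ker, powMonoidHom_apply]
    have h1 : n • (Additive.ofMul.trans f.toEquiv) x = f (Additive.ofMul (x ^ n)) := by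
      rw [ofMul_pow, map_nsmul]
      rfl
    rw [h1, map_eq_zero_iff f f.injective]
    rfl
  have e2 : Nat.card {x : (i : ι) → ZMod (p i ^ e i) // n • x = 0} =
      Nat.card ((i : ι) → {x : ZMod (p i ^ e i) // n • x = 0}) := by
    apply Nat.card_congr
    exact { toFun := fun x i => ⟨x.1 i, congrFun x.2 i⟩
            invFun := fun y => ⟨fun i => (y i).1, funext fun i => (y i).2⟩
            left_inv := fun _ => rfl
            right_inv := fun _ => rfl }
  rw [e1, e2, Nat.card_pi]
  refine prod_congr rfl fun i _ => ?_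
  have h1 := IsAddCyclic.card_nsmulAddMonoidHom_ker (G := ZMod (p i ^ e i)) n
  rw [Nat.card_zmod] at h1
  rw [← h1]
  rfl

theorem gcd_pow (p q e k : ℕ) (hp : p.Prime) (hq : q.Prime) :
    (p ^ e).gcd (q ^ k) = q ^ (if p = q then min e k else 0) := by
  split_ifs with h
  · subst h
    rcases le_total e k with h | h
    · rw [min_eq_left h]
      exact Nat.gcd_eq_left (pow_dvd_pow _ h)
    · rw [min_eq_right h]
      exact Nat.gcd_eq_right (pow_dvd_pow _ h)
  · rw [pow_zero]
    exact Nat.Coprime.pow _ _ ((Nat.coprime_primes hp hq).2 h)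

/-- the exponent of the prime `q` in the number of the elements killed by `q ^ k` -/
def sq (ι : Type) [Fintype ι] (p e : ι → ℕ) (q k : ℕ) : ℕ :=
  ∑ i, if p i = q then min (e i) k else 0

theorem count (ι : Type) [Fintype ι] (p e : ι → ℕ) (q k : ℕ) :
    (univ.filter (fun i => p i = q ∧ e i = k + 1)).card + sq ι p e q k + sq ι p e q (k + 2) =
      2 * sq ι p e q (k + 1) := by
  unfold sq
  rw [card_filter, ← sum_add_distrib, ← sum_add_distrib, mul_sum]
  refine sum_congr rfl fun i _ => ?_
  by_cases h : p i = q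
  · simp only [h, true_and, if_true]
    split_ifs with h1 <;> omega
  · simp [h]

theorem prod_eq (ι : Type) [Fintype ι] (p e : ι → ℕ) (hp : ∀ i, (p i).Prime) (q k : ℕ)
    (hq : q.Prime) : ∏ i, (p i ^ e i).gcd (q ^ k) = q ^ sq ι p e q k := by
  unfold sq
  rw [← prod_pow_eq_pow_sum]
  exact prod_congr rfl fun i _ => gcd_pow _ _ _ _ (hp i) hq

theorem iso_of_index (G H : Type) [CommGroup G] [CommGroup H] [Finite G] [Finite H]
    (h : ∀ n : ℕ, (powMonoidHom n : G →* G).range.index = (powMonoidHom n : H →* H).range.index) :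
    Nonempty (G ≃* H) := by
  classical
  obtain ⟨ι, hι, p, e, hp, he, ⟨f⟩⟩ := dec G
  obtain ⟨κ, hκ, r, d, hr, hd, ⟨g⟩⟩ := dec H
  have h1 : ∀ n, ∏ i, (p i ^ e i).gcd n = ∏ i, (r i ^ d i).gcd n := by
    intro n
    rw [← index_eq G ι p e hp f, ← index_eq H κ r d hr g]
    exact h n
  have h2 : ∀ q k : ℕ, q.Prime → sq ι p e q k = sq κ r d q k := by
    intro q k hq
    have h3 := h1 (q ^ k)
    rw [prod_eq ι p e hp q k hq, prod_eq κ r d hr q k hq] at h3
    exact Nat.pow_right_injective hq.two_le h3
  have h3 : ∀ q k : ℕ, (univ.filter (fun i => p i = q ∧ e i = k)).card =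
      (univ.filter (fun i => r i = q ∧ d i = k)).card := by
    intro q k
    by_cases hq : q.Prime
    · rcases k with _ | k
      · rw [filter_eq_empty_iff.2 fun i _ hi => he i hi.2,
          filter_eq_empty_iff.2 fun i _ hi => hd i hi.2, card_empty, card_empty]
      · have h4 := count ι p e q k
        have h5 := count κ r d q k
        rw [h2 q k hq, h2 q (k + 1) hq, h2 q (k + 2) hq] at h4
        omega
    · have e1 : univ.filter (fun i => p i = q ∧ e i = k) = ∅ :=
        filter_eq_empty_iff.2 fun i _ hi => hq (hi.1 ▸ hp i)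
      have e2 : univ.filter (fun i => r i = q ∧ d i = k) = ∅ :=
        filter_eq_empty_iff.2 fun i _ hi => hq (hi.1 ▸ hr i)
      rw [e1, e2, card_empty, card_empty]
  have h4 : ∀ b : ℕ × ℕ, Nonempty ({i : ι // (p i, e i) = b} ≃ {i : κ // (r i, d i) = b}) := by
    intro b
    refine ⟨Fintype.equivOfCardEq ?_⟩
    rw [Fintype.card_subtype, Fintype.card_subtype]
    have := h3 b.1 b.2
    convert this using 3 with i i
    · exact Prod.ext_iff
    · exact Prod.ext_iff
  let σ : ι ≃ κ := (Equiv.sigmaFiberEquiv fun i => (p i, e i)).symm.trans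
    ((Equiv.sigmaCongrRight fun b => (h4 b).some).trans (Equiv.sigmaFiberEquiv fun i => (r i, d i)))
  have hσ : ∀ i, (r (σ i), d (σ i)) = (p i, e i) := by
    intro i
    exact ((h4 (p i, e i)).some ⟨i, rfl⟩).2
  have hp' : p = fun i => r (σ i) := funext fun i => (Prod.ext_iff.1 (hσ i)).1.symm
  have he' : e = fun i => d (σ i) := funext fun i => (Prod.ext_iff.1 (hσ i)).2.symm
  clear_value σ
  have f' : Additive G ≃+ ((i : ι) → ZMod (r (σ i) ^ d (σ i))) := by
    rw [hp', he'] at f
    exact f
  have c := (LinearEquiv.piCongrLeft ℤ (fun i => ZMod (r i ^ d i)) σ).toAddEquiv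
  exact ⟨MulEquiv.toAdditive.symm (f'.trans (c.trans g.symm))⟩

/-- the orders of the groups are the indices for the exponent zero -/
theorem index_zero (G : Type) [CommGroup G] [Finite G] :
    (powMonoidHom 0 : G →* G).range.index = Nat.card G := by
  have : (powMonoidHom 0 : G →* G).range = ⊥ := by
    rw [eq_bot_iff]
    rintro x ⟨y, rfl⟩
    rw [Subgroup.mem_bot, powMonoidHom_apply, pow_zero]
  rw [this, Subgroup.index_bot]

/-- the index depends only on the greatest common divisor of the exponent and the order -/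
theorem index_gcd (G : Type) [CommGroup G] [Finite G] (n : ℕ) :
    (powMonoidHom n : G →* G).range.index =
      (powMonoidHom ((Nat.card G).gcd n) : G →* G).range.index := by
  obtain ⟨ι, hι, p, e, hp, he, ⟨f⟩⟩ := dec G
  rw [index_eq G ι p e hp f, index_eq G ι p e hp f]
  refine prod_congr rfl fun i _ => ?_
  have h1 : p i ^ e i ∣ Nat.card G := by
    have h2 : Nat.card G = ∏ i, p i ^ e i := by
      have h3 := index_eq G ι p e hp f 0
      rw [index_zero] at h3
      rw [h3]
      exact prod_congr rfl fun i _ => Nat.gcd_zero_right _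
    rw [h2]
    exact dvd_prod_of_mem _ (mem_univ i)
  rw [← Nat.gcd_assoc, Nat.gcd_eq_left h1]

/-- finitely many exponents suffice -/
theorem iso_of_index_le (G H : Type) [CommGroup G] [CommGroup H] [Finite G] [Finite H]
    (h : ∀ n ∈ range (Nat.card G + 1),
      (powMonoidHom n : H →* H).range.index = (powMonoidHom n : G →* G).range.index) :
    Nonempty (H ≃* G) := by
  have h0 : Nat.card H = Nat.card G := by
    have := h 0 (mem_range.2 (Nat.succ_pos _))
    rwa [index_zero, index_zero] at this
  apply iso_of_index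
  intro n
  rw [index_gcd H n, index_gcd G n, h0]
  apply h
  rw [mem_range]
  exact Nat.lt_succ_of_le (Nat.gcd_le_left _ Nat.card_pos)

end Pool.Agent.Q299.PPR.Iso
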