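import Pool.Agent.Q299.PPR.Core
import Pool.Agent.Q299.PPR.DefG
import Pool.Agent.Q299.PPR.Iso

/-!
# Proofs: the law of the class group of the field of the square root of a prime
-/

set_option autoImplicit false

namespace Pool.Agent.Q299.PPR

open Filter Finset NumberField
open scoped Classical
open Pool.Agent.Results.MP_321647_nt.RandomWalk

theorem prod_diff (S : Finset ℕ) (κ : ℕ → ℕ) (x y : ℕ → ℝ) (hx0 : ∀ n, 0 ≤ x n) (hx1 : ∀ n, x n ≤ 1)
    (hy0 : ∀ n, 0 ≤ y n) (hy1 : ∀ n, y n ≤ 1) (δ : ℝ) (hd : ∀ n, |x n - y n| ≤ δ) :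
    |∏ n ∈ S, x n ^ κ n - ∏ n ∈ S, y n ^ κ n| ≤ (∑ n ∈ S, κ n : ℕ) * δ := by
  induction S using Finset.induction_on with
  | empty => simp
  | insert b S hb ih =>
    rw [prod_insert hb, prod_insert hb, sum_insert hb]
    have e : x b ^ κ b * ∏ n ∈ S, x n ^ κ n - y b ^ κ b * ∏ n ∈ S, y n ^ κ n =
        x b ^ κ b * (∏ n ∈ S, x n ^ κ n - ∏ n ∈ S, y n ^ κ n) +
          (x b ^ κ b - y b ^ κ b) * ∏ n ∈ S, y n ^ κ n := by ring
    rw [e]
    refine (abs_add_le _ _).trans ?_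
    rw [abs_mul, abs_mul, abs_of_nonneg (pow_nonneg (hx0 b) _),
      abs_of_nonneg (prod_nonneg fun n _ => pow_nonneg (hy0 n) _)]
    have h1 : x b ^ κ b * |∏ n ∈ S, x n ^ κ n - ∏ n ∈ S, y n ^ κ n| ≤
        1 * |∏ n ∈ S, x n ^ κ n - ∏ n ∈ S, y n ^ κ n| :=
      mul_le_mul_of_nonneg_right (pow_le_one₀ (hx0 b) (hx1 b)) (abs_nonneg _)
    have h2 : |x b ^ κ b - y b ^ κ b| * ∏ n ∈ S, y n ^ κ n ≤ |x b ^ κ b - y b ^ κ b| * 1 :=
      mul_le_mul_of_nonneg_left (prod_le_one (fun n _ => pow_nonneg (hy0 n) _)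
        fun n _ => pow_le_one₀ (hy0 n) (hy1 n)) (abs_nonneg _)
    have h3 := pow_diff (hx0 b) (hx1 b) (hy0 b) (hy1 b) (κ b)
    have h4 : (κ b : ℝ) * |x b - y b| ≤ κ b * δ := mul_le_mul_of_nonneg_left (hd b) (by positivity)
    push_cast at ih ⊢
    linarith

theorem inv_ind (n p : ℕ) : 0 ≤ 1 / (ind n p : ℝ) ∧ 1 / (ind n p : ℝ) ≤ 1 := by
  have : (1 : ℝ) ≤ ind n p := by exact_mod_cast ind_pos n p
  refine ⟨by positivity, ?_⟩
  rw [div_le_one (by linarith)]
  exact this

theorem partA' (a : ℝ) (ha : 2 < a) (M : ℕ → ℕ)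
    (hM : ∀ p : ℕ, p.Prime → 500 * (Real.log p / Real.log (Real.log p)) ≤ M p) (S : Finset ℕ)
    (κ : ℕ → ℕ) :
    Tendsto (fun X : ℕ => FS a M S κ X - mean X (fun p => ∏ n ∈ S, (1 / (ind n p : ℝ)) ^ κ n)) atTop
      (nhds 0) := by
  rw [Metric.tendsto_atTop]
  intro ε hε
  set k : ℕ := ∑ n ∈ S, κ n with hk
  set δ : ℝ := ε / (2 * (k + 1)) with hδ
  have hk1 : (0 : ℝ) < (k : ℝ) + 1 := by positivity
  have hδ0 : 0 < δ := by positivity
  have hal := (result a δ ha hδ0).2.1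
  unfold AlmostAll at hal
  rw [Metric.tendsto_atTop] at hal
  obtain ⟨N, hN⟩ := hal (ε / 2) (by linarith)
  refine ⟨N, fun X hX => ?_⟩
  have h1 := hN X hX
  rw [Real.dist_0_eq_abs, abs_of_nonneg (by positivity)] at h1
  rw [Real.dist_0_eq_abs]
  unfold FS
  have hkδ : (k : ℝ) * δ ≤ ε / 2 := by
    rw [hδ]
    rw [mul_div_assoc', div_le_div_iff₀ (by positivity) (by norm_num)]
    nlinarith
  have hfin : (k : ℝ) * δ + (((Finset.Icc 1 X).filter (fun d => d.Prime ∧ ¬ Good a δ d)).card : ℝ) /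
        (((Finset.Icc 1 X).filter Nat.Prime).card : ℝ) < ε := by
    have h2 : (((Finset.Icc 1 X).filter (fun d => d.Prime ∧ ¬ Good a δ d)).card : ℝ) /
        (((Finset.Icc 1 X).filter Nat.Prime).card : ℝ) < ε / 2 := by
      convert h1
    linarith
  refine lt_of_le_of_lt (mean_bound X _ _ (Good a δ) (k * δ) (by positivity) ?_ ?_) hfin
  · intro p hp hg
    exact prod_diff S κ _ _ (fun n => share_nonneg _ _ _ _) (fun n => share_le_one _ _ _ _)
      (fun n => (inv_ind n p).1) (fun n => (inv_ind n p).2) δ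
      (fun n => share_good a δ p (M p) n hp hg (hM p hp))
  · intro p
    have h2 : 0 ≤ ∏ n ∈ S, share (QS p) ((Real.log p) ^ a) (M p) n ^ κ n :=
      prod_nonneg fun n _ => pow_nonneg (share_nonneg _ _ _ _) _
    have h3 : ∏ n ∈ S, share (QS p) ((Real.log p) ^ a) (M p) n ^ κ n ≤ 1 :=
      prod_le_one (fun n _ => pow_nonneg (share_nonneg _ _ _ _) _)
        fun n _ => pow_le_one₀ (share_nonneg _ _ _ _) (share_le_one _ _ _ _)
    have h4 : 0 ≤ ∏ n ∈ S, (1 / (ind n p : ℝ)) ^ κ n :=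
      prod_nonneg fun n _ => pow_nonneg (inv_ind n p).1 _
    have h5 : ∏ n ∈ S, (1 / (ind n p : ℝ)) ^ κ n ≤ 1 :=
      prod_le_one (fun n _ => pow_nonneg (inv_ind n p).1 _)
        fun n _ => pow_le_one₀ (inv_ind n p).1 (inv_ind n p).2
    rw [abs_le]
    constructor <;> linarith

/-! ## laws on a countable family of disjoint events -/

section

variable (E : ℕ → ℕ → Prop) (hE : ∀ p i j, E i p → E j p → i = j)

/-- the proportion of the primes for which the event happens -/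
noncomputable def PE (i X : ℕ) : ℝ := mean X (fun p => if E i p then (1 : ℝ) else 0)

include hE

theorem mean_decomp' (s : Finset ℕ) (g : ℕ → ℝ) (γ : ℕ → ℝ) (hg : ∀ p, |g p| ≤ 1)
    (hgγ : ∀ p i, E i p → g p = γ i) (X : ℕ) :
    |mean X g - ∑ j ∈ s, γ j * PE E j X| ≤ 1 - ∑ j ∈ s, PE E j X := by
  have e1 : ∑ j ∈ s, γ j * PE E j X =
      mean X (fun p => ∑ j ∈ s, γ j * (if E j p then (1 : ℝ) else 0)) := by
    rw [mean_sum]
    rfl
  have e2 : ∑ j ∈ s, PE E j X =
      mean X (fun p => ∑ j ∈ s, (1 : ℝ) * (if E j p then (1 : ℝ) else 0)) := by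
    rw [mean_sum]
    exact sum_congr rfl fun j _ => by rw [PE, one_mul]
  rw [e1, e2, mean_sub]
  have h1 : mean X (fun p => 1 - ∑ j ∈ s, (1 : ℝ) * (if E j p then (1 : ℝ) else 0)) ≤
      1 - mean X (fun p => ∑ j ∈ s, (1 : ℝ) * (if E j p then (1 : ℝ) else 0)) := by
    rw [← mean_sub]
    linarith [mean_const_le X 1 (by norm_num)]
  refine (mean_abs X _ _ fun p => ?_).trans h1
  by_cases hs : ∃ j ∈ s, E j p
  · obtain ⟨j, hj, hjp⟩ := hs
    rw [sum_eq_single_of_mem j hj, sum_eq_single_of_mem j hj]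
    · rw [if_pos hjp, mul_one, hgγ p j hjp]
      simp
    · intro b _ hb
      rw [if_neg fun h => hb (hE p b j h hjp), mul_zero]
    · intro b _ hb
      rw [if_neg fun h => hb (hE p b j h hjp), mul_zero]
  · push Not at hs
    rw [sum_eq_zero, sum_eq_zero]
    · rw [sub_zero, sub_zero]
      exact hg p
    · intro b hb
      rw [if_neg (hs b hb), mul_zero]
    · intro b hb
      rw [if_neg (hs b hb), mul_zero]

theorem law_to_mean' (w : ℕ → ℝ) (hw : ∀ j, 0 ≤ w j) (hs : HasSum w 1)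
    (hP : ∀ j, Tendsto (fun X => PE E j X) atTop (nhds (w j))) (g : ℕ → ℝ) (γ : ℕ → ℝ)
    (hg : ∀ p, |g p| ≤ 1) (hγ : ∀ j, |γ j| ≤ 1) (hgγ : ∀ p i, E i p → g p = γ i) :
    Tendsto (fun X => mean X g) atTop (nhds (∑' j, w j * γ j)) := by
  have hsum : Summable (fun j => w j * γ j) := by
    refine Summable.of_norm_bounded hs.summable fun j => ?_
    rw [Real.norm_eq_abs, abs_mul, abs_of_nonneg (hw j)]
    exact mul_le_of_le_one_right (hw j) (hγ j)
  rw [Metric.tendsto_atTop]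
  intro ε hε
  obtain ⟨s, hs1⟩ : ∃ s : Finset ℕ, 1 - ε / 8 < ∑ j ∈ s, w j := by
    have := (hs.eventually (lt_mem_nhds (show 1 - ε / 8 < 1 by linarith))).exists
    exact this
  have hs2 : |∑' j, w j * γ j - ∑ j ∈ s, w j * γ j| ≤ ε / 8 := by
    rw [← hsum.sum_add_tsum_subtype_compl s, add_sub_cancel_left]
    have hsc : Summable (fun j : {x // x ∉ s} => w j) := hs.summable.subtype _
    have hscg : Summable (fun j : {x // x ∉ s} => w j * γ j) := hsum.subtype _
    have h2 : ∑' j : {x // x ∉ s}, w j ≤ ε / 8 := by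
      have h3 := hs.summable.sum_add_tsum_subtype_compl s
      rw [hs.tsum_eq] at h3
      linarith
    refine le_trans ?_ h2
    rw [← Real.norm_eq_abs]
    refine (norm_tsum_le_tsum_norm hscg.norm).trans ?_
    refine hscg.norm.tsum_le_tsum (fun j => ?_) hsc
    rw [Real.norm_eq_abs, abs_mul, abs_of_nonneg (hw j)]
    exact mul_le_of_le_one_right (hw j) (hγ j)
  have h1 : Tendsto (fun X => ∑ j ∈ s, PE E j X) atTop (nhds (∑ j ∈ s, w j)) :=
    tendsto_finsetSum _ fun j _ => hP j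
  have h2 : Tendsto (fun X => ∑ j ∈ s, γ j * PE E j X) atTop (nhds (∑ j ∈ s, γ j * w j)) :=
    tendsto_finsetSum _ fun j _ => (hP j).const_mul (γ j)
  rw [Metric.tendsto_atTop] at h1 h2
  obtain ⟨N1, hN1⟩ := h1 (ε / 8) (by linarith)
  obtain ⟨N2, hN2⟩ := h2 (ε / 8) (by linarith)
  refine ⟨max N1 N2, fun X hX => ?_⟩
  have h3 := hN1 X ((le_max_left _ _).trans hX)
  have h4 := hN2 X ((le_max_right _ _).trans hX)
  have h5 := mean_decomp' E hE s g γ hg hgγ X
  have h6 : ∑ j ∈ s, γ j * w j = ∑ j ∈ s, w j * γ j := sum_congr rfl fun j _ => mul_comm _ _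
  rw [h6] at h4
  rw [Real.dist_eq, abs_lt] at h3 h4
  rw [abs_le] at h5 hs2
  rw [Real.dist_eq, abs_lt]
  constructor <;> linarith [h3.1, h3.2, h4.1, h4.2, h5.1, h5.2, hs2.1, hs2.2]

end

/-! ## polynomials in the inverses of the indices -/

/-- the polynomial approximations of products of tent functions -/
theorem approx (t : ℕ → ℕ) (S : Finset ℕ) :
    ∀ ε : ℝ, 0 < ε → ∃ Q : MvPolynomial ℕ ℝ, ∀ x : ℕ → ℝ, (∀ n, x n ∈ Set.Icc (0 : ℝ) 1) →
      |MvPolynomial.eval x Q - ∏ n ∈ S, tent (t n) (x n)| ≤ ε := by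
  have hb : ∀ n x, 0 ≤ tent (t n) x ∧ tent (t n) x ≤ 1 := by
    intro n x
    refine ⟨le_max_left _ _, max_le zero_le_one ?_⟩
    have : 0 ≤ |x - 1 / (t n : ℝ)| * ((t n : ℝ) * ((t n : ℝ) + 1)) := by positivity
    linarith
  induction S using Finset.induction_on with
  | empty =>
    intro ε hε
    refine ⟨1, fun x _ => ?_⟩
    simp [hε.le]
  | insert b S hbS ih =>
    intro ε hε
    obtain ⟨Q, hQ⟩ := ih (min 1 (ε / 2)) (lt_min one_pos (by linarith))
    obtain ⟨q, hq⟩ := exists_polynomial_near_of_continuousOn 0 1 (tent (t b))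
      (tent_cont (t b)).continuousOn (ε / 4) (by linarith)
    refine ⟨Polynomial.aeval (MvPolynomial.X b) q * Q, fun x hx => ?_⟩
    have e1 : MvPolynomial.eval x (Polynomial.aeval (MvPolynomial.X b) q) = q.eval (x b) := by
      rw [← MvPolynomial.coe_aeval_eq_eval, RingHom.coe_coe, ← Polynomial.aeval_algHom_apply,
        MvPolynomial.aeval_X]
      rfl
    rw [map_mul, e1, prod_insert hbS]
    have h1 := hq (x b) (hx b)
    have h2 := hQ x hx
    have h3 := hb b (x b)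
    have hB0 : 0 ≤ ∏ n ∈ S, tent (t n) (x n) := prod_nonneg fun n _ => (hb n _).1
    have hB1 : ∏ n ∈ S, tent (t n) (x n) ≤ 1 :=
      prod_le_one (fun n _ => (hb n _).1) fun n _ => (hb n _).2
    have h4 : |MvPolynomial.eval x Q| ≤ 2 := by
      have h5 : |MvPolynomial.eval x Q - ∏ n ∈ S, tent (t n) (x n)| ≤ 1 :=
        h2.trans (min_le_left _ _)
      rw [abs_le] at h5 ⊢
      constructor <;> linarith [h5.1, h5.2]
    have h6 : |MvPolynomial.eval x Q - ∏ n ∈ S, tent (t n) (x n)| ≤ ε / 2 :=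
      h2.trans (min_le_right _ _)
    have e2 : q.eval (x b) * MvPolynomial.eval x Q -
        tent (t b) (x b) * ∏ n ∈ S, tent (t n) (x n) =
        (q.eval (x b) - tent (t b) (x b)) * MvPolynomial.eval x Q +
          tent (t b) (x b) * (MvPolynomial.eval x Q - ∏ n ∈ S, tent (t n) (x n)) := by ring
    rw [e2]
    refine (abs_add_le _ _).trans ?_
    rw [abs_mul, abs_mul, abs_of_nonneg h3.1]
    have h7 : |q.eval (x b) - tent (t b) (x b)| * |MvPolynomial.eval x Q| ≤ ε / 4 * 2 :=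
      mul_le_mul h1.le h4 (abs_nonneg _) (by linarith)
    have h8 : tent (t b) (x b) * |MvPolynomial.eval x Q - ∏ n ∈ S, tent (t n) (x n)| ≤
        1 * (ε / 2) := mul_le_mul h3.2 h6 (abs_nonneg _) zero_le_one
    linarith

theorem gind_pos (G : Type) [CommGroup G] [Finite G] (n : ℕ) : 1 ≤ gind G n := by
  unfold gind
  exact Nat.one_le_iff_ne_zero.2 Subgroup.index_ne_zero_of_finite

theorem inv_gind (G : Type) [CommGroup G] [Finite G] (n : ℕ) :
    0 ≤ 1 / (gind G n : ℝ) ∧ 1 / (gind G n : ℝ) ≤ 1 := by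
  have : (1 : ℝ) ≤ gind G n := by exact_mod_cast gind_pos G n
  refine ⟨by positivity, ?_⟩
  rw [div_le_one (by linarith)]
  exact this

theorem gind_congr (G H : Type) [CommGroup G] [CommGroup H] [Finite G] [Finite H] (e : G ≃* H)
    (n : ℕ) : gind G n = gind H n := by
  unfold gind
  rw [Subgroup.index_range, Subgroup.index_range]
  apply Nat.card_congr
  refine Equiv.subtypeEquiv e.toEquiv ?_
  intro x
  rw [MonoidHom.mem_ker, MonoidHom.mem_ker, powMonoidHom_apply, powMonoidHom_apply]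
  have : e.toEquiv x ^ n = e (x ^ n) := (map_pow e x n).symm
  rw [this]
  exact (map_eq_one_iff e e.injective).symm

theorem ind_gind (n p : ℕ) : ind n p = gind (ClassGroup (𝓞 (QS p))) n := rfl

theorem PG_eq (G : Type) [CommGroup G] (X : ℕ) : PG G X =
    mean X (fun p => if Nonempty (ClassGroup (𝓞 (QS p)) ≃* G) then (1 : ℝ) else 0) := by
  unfold PG mean
  rw [sum_ite, sum_const_zero, add_zero, sum_const, nsmul_eq_mul, mul_one, filter_filter]

section

variable (G : ℕ → Type) [∀ i, CommGroup (G i)] [∀ i, Finite (G i)]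
  (hG : ∀ i j, Nonempty (G i ≃* G j) → i = j)

theorem mean_poly' (w : ℕ → ℝ) (hs : Summable w) (hw : ∀ j, 0 ≤ w j)
    (hm : ∀ (S : Finset ℕ) (κ : ℕ → ℕ),
      Tendsto (fun X => mean X (fun p => ∏ n ∈ S, (1 / (ind n p : ℝ)) ^ κ n)) atTop
      (nhds (∑' j, w j * ∏ n ∈ S, (1 / (gind (G j) n : ℝ)) ^ κ n))) (Q : MvPolynomial ℕ ℝ) :
    Tendsto (fun X => mean X (fun p => MvPolynomial.eval (fun n => 1 / (ind n p : ℝ)) Q)) atTop
      (nhds (∑' j, w j * MvPolynomial.eval (fun n => 1 / (gind (G j) n : ℝ)) Q)) := by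
  have hsum : ∀ (S : Finset ℕ) (κ : ℕ → ℕ),
      Summable (fun j => w j * ∏ n ∈ S, (1 / (gind (G j) n : ℝ)) ^ κ n) := by
    intro S κ
    refine Summable.of_norm_bounded hs fun j => ?_
    rw [Real.norm_eq_abs, abs_mul, abs_of_nonneg (hw j)]
    apply mul_le_of_le_one_right (hw j)
    rw [abs_of_nonneg (prod_nonneg fun n _ => pow_nonneg (inv_gind (G j) n).1 _)]
    exact prod_le_one (fun n _ => pow_nonneg (inv_gind (G j) n).1 _)
      fun n _ => pow_le_one₀ (inv_gind (G j) n).1 (inv_gind (G j) n).2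
  have e1 : ∀ X, mean X (fun p => MvPolynomial.eval (fun n => 1 / (ind n p : ℝ)) Q) =
      ∑ d ∈ Q.support, Q.coeff d *
        mean X (fun p => ∏ n ∈ d.support, (1 / (ind n p : ℝ)) ^ d n) := by
    intro X
    rw [← mean_sum]
    exact congrArg (mean X) (funext fun p => MvPolynomial.eval_eq _ _)
  have e2 : ∑' j, w j * MvPolynomial.eval (fun n => 1 / (gind (G j) n : ℝ)) Q =
      ∑ d ∈ Q.support, Q.coeff d *
        ∑' j, w j * ∏ n ∈ d.support, (1 / (gind (G j) n : ℝ)) ^ d n := by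
    have : ∀ j, w j * MvPolynomial.eval (fun n => 1 / (gind (G j) n : ℝ)) Q =
        ∑ d ∈ Q.support, Q.coeff d *
          (w j * ∏ n ∈ d.support, (1 / (gind (G j) n : ℝ)) ^ d n) := by
      intro j
      rw [MvPolynomial.eval_eq, mul_sum]
      exact sum_congr rfl fun k _ => by ring
    rw [tsum_congr this, Summable.tsum_finsetSum fun k _ => (hsum _ _).mul_left _]
    exact sum_congr rfl fun k _ => tsum_mul_left
  rw [e2]
  simp_rw [e1]
  exact tendsto_finsetSum _ fun d _ => (hm _ _).const_mul _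

theorem tent_prod (S : Finset ℕ) (t u : ℕ → ℕ) (ht : ∀ n, 1 ≤ t n) (hu : ∀ n, 1 ≤ u n) :
    ∏ n ∈ S, tent (t n) (1 / (u n : ℝ)) = if ∀ n ∈ S, u n = t n then 1 else 0 := by
  split_ifs with h
  · apply prod_eq_one
    intro n hn
    rw [tent_inv _ _ (ht n) (hu n), if_pos (h n hn)]
  · push Not at h
    obtain ⟨n, hn, hne⟩ := h
    apply prod_eq_zero hn
    rw [tent_inv _ _ (ht n) (hu n), if_neg hne]

theorem iso_iff (A B : Type) [CommGroup A] [CommGroup B] [Finite A] [Finite B] :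
    (∀ n ∈ range (Nat.card A + 1), gind B n = gind A n) ↔ Nonempty (B ≃* A) :=
  ⟨fun h => Iso.iso_of_index_le A B h, fun ⟨e⟩ n _ => gind_congr B A e n⟩

include hG

theorem mean_to_law' (w : ℕ → ℝ) (hs : HasSum w 1) (hw : ∀ j, 0 ≤ w j)
    (hm : ∀ (S : Finset ℕ) (κ : ℕ → ℕ),
      Tendsto (fun X => mean X (fun p => ∏ n ∈ S, (1 / (ind n p : ℝ)) ^ κ n)) atTop
      (nhds (∑' j, w j * ∏ n ∈ S, (1 / (gind (G j) n : ℝ)) ^ κ n))) (j : ℕ) :
    Tendsto (PG (G j)) atTop (nhds (w j)) := by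
  rw [Metric.tendsto_atTop]
  intro ε hε
  obtain ⟨Q, hnear⟩ := approx (gind (G j)) (range (Nat.card (G j) + 1)) (ε / 5)
    (by linarith)
  have hiff1 : ∀ p, ∏ n ∈ range (Nat.card (G j) + 1), tent (gind (G j) n) (1 / (ind n p : ℝ)) =
      if Nonempty (ClassGroup (𝓞 (QS p)) ≃* G j) then (1 : ℝ) else 0 := by
    intro p
    rw [tent_prod _ _ (fun n => ind n p) (gind_pos (G j)) (fun n => ind_pos n p)]
    exact if_congr (iso_iff (G j) (ClassGroup (𝓞 (QS p)))) rfl rfl
  have hiff2 : ∀ i, ∏ n ∈ range (Nat.card (G j) + 1), tent (gind (G j) n) (1 / (gind (G i) n : ℝ)) =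
      if i = j then (1 : ℝ) else 0 := by
    intro i
    rw [tent_prod _ _ (gind (G i)) (gind_pos (G j)) (gind_pos (G i))]
    refine if_congr ((iso_iff (G j) (G i)).trans ⟨hG i j, fun h => ?_⟩) rfl rfl
    subst h
    exact ⟨MulEquiv.refl _⟩
  have h1 := mean_poly' G w hs.summable hw hm Q
  rw [Metric.tendsto_atTop] at h1
  obtain ⟨N, hN⟩ := h1 (ε / 5) (by linarith)
  refine ⟨N, fun X hX => ?_⟩
  have h2 := hN X hX
  rw [Real.dist_eq] at h2
  -- the empirical side
  have h3 : |mean X (fun p => MvPolynomial.eval (fun n => 1 / (ind n p : ℝ)) Q) - PG (G j) X| ≤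
      ε / 5 := by
    rw [PG_eq, mean_sub]
    refine (mean_abs X _ (fun _ => ε / 5) fun p => ?_).trans (mean_const_le X _ (by linarith))
    have := hnear (fun n => 1 / (ind n p : ℝ)) (fun n => inv_ind n p)
    rw [hiff1 p] at this
    exact this
  -- the limit side
  have h4 : |∑' i, w i * MvPolynomial.eval (fun n => 1 / (gind (G i) n : ℝ)) Q - w j| ≤ ε / 5 := by
    have hterm : ∀ i, |w i * (MvPolynomial.eval (fun n => 1 / (gind (G i) n : ℝ)) Q -
        if i = j then 1 else 0)| ≤ w i * (ε / 5) := by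
      intro i
      rw [abs_mul, abs_of_nonneg (hw i)]
      apply mul_le_mul_of_nonneg_left _ (hw i)
      have := hnear (fun n => 1 / (gind (G i) n : ℝ)) (fun n => inv_gind (G i) n)
      rwa [hiff2 i] at this
    have hsd : Summable (fun i => w i * (MvPolynomial.eval (fun n => 1 / (gind (G i) n : ℝ)) Q -
        if i = j then 1 else 0)) :=
      Summable.of_norm_bounded (hs.summable.mul_right _) fun i => by
        rw [Real.norm_eq_abs]
        exact hterm i
    have hsj : HasSum (fun i => w i * (if i = j then (1 : ℝ) else 0)) (w j) := by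
      have := hasSum_ite_eq j (w j)
      convert this using 2 with i
      by_cases hij : i = j
      · rw [hij]
        simp
      · rw [if_neg hij, if_neg hij, mul_zero]
    have e : (fun i => w i * MvPolynomial.eval (fun n => 1 / (gind (G i) n : ℝ)) Q) = fun i =>
        w i * (MvPolynomial.eval (fun n => 1 / (gind (G i) n : ℝ)) Q - if i = j then 1 else 0) +
          w i * (if i = j then (1 : ℝ) else 0) := by
      funext i
      ring
    rw [e, hsd.tsum_add hsj.summable, hsj.tsum_eq, add_sub_cancel_right]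
    have hb : ∑' i, w i * (ε / 5) = ε / 5 := by
      rw [tsum_mul_right, hs.tsum_eq, one_mul]
    refine le_trans ?_ hb.le
    rw [← Real.norm_eq_abs]
    refine (norm_tsum_le_tsum_norm hsd.norm).trans ?_
    exact hsd.norm.tsum_le_tsum (fun i => by rw [Real.norm_eq_abs]; exact hterm i)
      (hs.summable.mul_right _)
  rw [abs_le] at h3 h4
  rw [abs_lt] at h2
  rw [Real.dist_eq, abs_lt]
  constructor <;> linarith [h2.1, h2.2, h3.1, h3.2, h4.1, h4.2]

theorem partG (a : ℝ) (ha : 2 < a) (M : ℕ → ℕ)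
    (hM : ∀ p : ℕ, p.Prime → 500 * (Real.log p / Real.log (Real.log p)) ≤ M p)
    (w : ℕ → ℝ) (hw : ∀ j, 0 ≤ w j) (hs : HasSum w 1) :
    (∀ j, Tendsto (PG (G j)) atTop (nhds (w j))) ↔
      ∀ (S : Finset ℕ) (κ : ℕ → ℕ), Tendsto (FS a M S κ) atTop
        (nhds (∑' j, w j * ∏ n ∈ S, (1 / (gind (G j) n : ℝ)) ^ κ n)) := by
  have hA := partA' a ha M hM
  constructor
  · intro hP S κ
    have hE : ∀ p i j, Nonempty (ClassGroup (𝓞 (QS p)) ≃* G i) →
        Nonempty (ClassGroup (𝓞 (QS p)) ≃* G j) → i = j := by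
      rintro p i j ⟨e⟩ ⟨f⟩
      exact hG i j ⟨e.symm.trans f⟩
    have hP' : ∀ j, Tendsto (fun X => PE (fun i p => Nonempty (ClassGroup (𝓞 (QS p)) ≃* G i)) j X)
        atTop (nhds (w j)) := by
      intro j
      refine (hP j).congr fun X => ?_
      rw [PG_eq]
      rfl
    have h1 := law_to_mean' (fun i p => Nonempty (ClassGroup (𝓞 (QS p)) ≃* G i)) hE w hw hs hP'
      (fun p => ∏ n ∈ S, (1 / (ind n p : ℝ)) ^ κ n)
      (fun j => ∏ n ∈ S, (1 / (gind (G j) n : ℝ)) ^ κ n) (fun p => by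
        rw [abs_of_nonneg (prod_nonneg fun n _ => pow_nonneg (inv_ind n p).1 _)]
        exact prod_le_one (fun n _ => pow_nonneg (inv_ind n p).1 _)
          fun n _ => pow_le_one₀ (inv_ind n p).1 (inv_ind n p).2) (fun j => by
        rw [abs_of_nonneg (prod_nonneg fun n _ => pow_nonneg (inv_gind (G j) n).1 _)]
        exact prod_le_one (fun n _ => pow_nonneg (inv_gind (G j) n).1 _)
          fun n _ => pow_le_one₀ (inv_gind (G j) n).1 (inv_gind (G j) n).2) (fun p i ⟨e⟩ => by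
        refine prod_congr rfl fun n _ => ?_
        rw [ind_gind, gind_congr _ _ e n])
    have h2 := (hA S κ).add h1
    rw [zero_add] at h2
    refine h2.congr fun X => ?_
    ring
  · intro hF j
    apply mean_to_law' G hG w hs hw _ j
    intro S κ
    have h2 := (hF S κ).sub (hA S κ)
    rw [sub_zero] at h2
    refine h2.congr fun X => ?_
    ring

end

end Pool.Agent.Q299.PPR
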