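import Pool.Agent.Q299.PPR.Av
import Pool.Agent.Q299.PPR.Group

/-!
# Laws on a countable family from mixed moments: general form
-/

set_option autoImplicit false

namespace Pool.Agent.Q299.PPR.Gen

open Filter Finset
open scoped Classical
open Pool.Agent.Q299.PPR.Av

section

variable (A : ℕ → Finset ℕ) (s : ℕ → ℕ → ℝ) (x : ℕ → ℕ → ℕ)
  (hs0 : ∀ d j, 0 ≤ s d j) (hs1 : ∀ d j, s d j ≤ 1) (hx : ∀ d j, 1 ≤ x d j)
  (G : ℝ → ℕ → Prop) (hG : ∀ δ X, ∀ d ∈ A X, G δ d → ∀ j, |s d j - 1 / (x d j : ℝ)| ≤ δ)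
  (hbad : ∀ δ : ℝ, 0 < δ → Tendsto (fun X : ℕ => (((A X).filter (fun d => ¬ G δ d)).card : ℝ) /
      ((A X).card : ℝ)) atTop (nhds 0))

theorem inv_nat (m : ℕ) (hm : 1 ≤ m) : 0 ≤ 1 / (m : ℝ) ∧ 1 / (m : ℝ) ≤ 1 := by
  have : (1 : ℝ) ≤ m := by exact_mod_cast hm
  refine ⟨by positivity, ?_⟩
  rw [div_le_one (by linarith)]
  exact this

theorem prod_mem (y : ℕ → ℝ) (h0 : ∀ n, 0 ≤ y n) (h1 : ∀ n, y n ≤ 1) (S : Finset ℕ) (κ : ℕ → ℕ) :
    0 ≤ ∏ n ∈ S, y n ^ κ n ∧ ∏ n ∈ S, y n ^ κ n ≤ 1 :=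
  ⟨prod_nonneg fun n _ => pow_nonneg (h0 n) _,
    prod_le_one (fun n _ => pow_nonneg (h0 n) _) fun n _ => pow_le_one₀ (h0 n) (h1 n)⟩

include hs0 hs1 hx hG hbad in
theorem mixed_tendsto (S : Finset ℕ) (κ : ℕ → ℕ) :
    Tendsto (fun X : ℕ => av A X (fun d => ∏ n ∈ S, s d n ^ κ n) -
      av A X (fun d => ∏ n ∈ S, (1 / (x d n : ℝ)) ^ κ n)) atTop (nhds 0) := by
  rw [Metric.tendsto_atTop]
  intro ε hε
  set k : ℕ := ∑ n ∈ S, κ n with hk
  set δ : ℝ := ε / (2 * (k + 1)) with hδ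
  have hk1 : (0 : ℝ) < (k : ℝ) + 1 := by positivity
  have hδ0 : 0 < δ := by positivity
  have hal := hbad δ hδ0
  rw [Metric.tendsto_atTop] at hal
  obtain ⟨N, hN⟩ := hal (ε / 2) (by linarith)
  refine ⟨N, fun X hX => ?_⟩
  have h1 := hN X hX
  rw [Real.dist_0_eq_abs, abs_of_nonneg (by positivity)] at h1
  rw [Real.dist_0_eq_abs]
  have hkδ : (k : ℝ) * δ ≤ ε / 2 := by
    rw [hδ]
    rw [mul_div_assoc', div_le_div_iff₀ (by positivity) (by norm_num)]
    nlinarith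
  have h3 := av_bound A X (fun d => ∏ n ∈ S, s d n ^ κ n)
    (fun d => ∏ n ∈ S, (1 / (x d n : ℝ)) ^ κ n) (G δ) (k * δ) 1 (by positivity) (fun d hd hg =>
      prod_diff S κ _ _ (hs0 d) (hs1 d) (fun n => (inv_nat _ (hx d n)).1)
        (fun n => (inv_nat _ (hx d n)).2) δ (hG δ X d hd hg)) (fun d => by
      have h4 := prod_mem (s d) (hs0 d) (hs1 d) S κ
      have h5 := prod_mem (fun n => 1 / (x d n : ℝ)) (fun n => (inv_nat _ (hx d n)).1)
        (fun n => (inv_nat _ (hx d n)).2) S κ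
      rw [abs_le]
      constructor <;> linarith [h4.1, h4.2, h5.1, h5.2])
  rw [one_mul] at h3
  linarith

end

section

variable (A : ℕ → Finset ℕ) (x : ℕ → ℕ → ℕ) (y : ℕ → ℕ → ℕ) (E : ℕ → ℕ → Prop) (St : ℕ → Finset ℕ)
  (hx : ∀ d j, 1 ≤ x d j) (hy : ∀ i j, 1 ≤ y i j)
  (hE : ∀ i d, E i d ↔ ∀ j ∈ St i, x d j = y i j)
  (hEx : ∀ i d, E i d → ∀ j, x d j = y i j)
  (hy' : ∀ i i', (∀ j ∈ St i, y i' j = y i j) → i' = i)

/-- the proportion for which the event happens -/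
noncomputable def PA (i X : ℕ) : ℝ := av A X (fun d => if E i d then (1 : ℝ) else 0)

include hE hEx hy' in
theorem disj (d i i' : ℕ) (h : E i d) (h' : E i' d) : i' = i := by
  apply hy' i i'
  intro j hj
  rw [← (hE i d).1 h j hj, hEx i' d h' j]

include hE hEx hy' in
theorem decomp (s : Finset ℕ) (g : ℕ → ℝ) (γ : ℕ → ℝ) (hg : ∀ p, |g p| ≤ 1)
    (hgγ : ∀ p i, E i p → g p = γ i) (X : ℕ) :
    |av A X g - ∑ j ∈ s, γ j * PA A E j X| ≤ 1 - ∑ j ∈ s, PA A E j X := by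
  have e1 : ∑ j ∈ s, γ j * PA A E j X =
      av A X (fun p => ∑ j ∈ s, γ j * (if E j p then (1 : ℝ) else 0)) := by
    rw [av_sum]
    rfl
  have e2 : ∑ j ∈ s, PA A E j X =
      av A X (fun p => ∑ j ∈ s, (1 : ℝ) * (if E j p then (1 : ℝ) else 0)) := by
    rw [av_sum]
    exact sum_congr rfl fun j _ => by rw [PA, one_mul]
  rw [e1, e2, av_sub]
  have h1 : av A X (fun p => 1 - ∑ j ∈ s, (1 : ℝ) * (if E j p then (1 : ℝ) else 0)) ≤
      1 - av A X (fun p => ∑ j ∈ s, (1 : ℝ) * (if E j p then (1 : ℝ) else 0)) := by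
    rw [← av_sub]
    linarith [av_const_le A X 1 (by norm_num)]
  refine (av_abs A X _ _ fun p => ?_).trans h1
  by_cases hs : ∃ j ∈ s, E j p
  · obtain ⟨j, hj, hjp⟩ := hs
    have hne : ∀ b, b ≠ j → ¬ E b p := fun b hb h => hb (disj x y E St hE hEx hy' p j b hjp h)
    rw [sum_eq_single_of_mem j hj, sum_eq_single_of_mem j hj]
    · rw [if_pos hjp, mul_one, hgγ p j hjp]
      simp
    · intro b _ hb
      rw [if_neg (hne b hb), mul_zero]
    · intro b _ hb
      rw [if_neg (hne b hb), mul_zero]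
  · push Not at hs
    rw [sum_eq_zero, sum_eq_zero]
    · rw [sub_zero, sub_zero]
      exact hg p
    · intro b hb
      rw [if_neg (hs b hb), mul_zero]
    · intro b hb
      rw [if_neg (hs b hb), mul_zero]

include hE hEx hy' in
theorem law_to (w : ℕ → ℝ) (hw : ∀ j, 0 ≤ w j) (hs : HasSum w 1)
    (hP : ∀ j, Tendsto (fun X => PA A E j X) atTop (nhds (w j))) (g : ℕ → ℝ) (γ : ℕ → ℝ)
    (hg : ∀ p, |g p| ≤ 1) (hγ : ∀ j, |γ j| ≤ 1) (hgγ : ∀ p i, E i p → g p = γ i) :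
    Tendsto (fun X => av A X g) atTop (nhds (∑' j, w j * γ j)) := by
  have hsum : Summable (fun j => w j * γ j) := by
    refine Summable.of_norm_bounded hs.summable fun j => ?_
    rw [Real.norm_eq_abs, abs_mul, abs_of_nonneg (hw j)]
    exact mul_le_of_le_one_right (hw j) (hγ j)
  rw [Metric.tendsto_atTop]
  intro ε hε
  obtain ⟨s, hs1⟩ : ∃ s : Finset ℕ, 1 - ε / 8 < ∑ j ∈ s, w j :=
    (hs.eventually (lt_mem_nhds (show 1 - ε / 8 < 1 by linarith))).exists
  have hs2 : |∑' j, w j * γ j - ∑ j ∈ s, w j * γ j| ≤ ε / 8 := by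
    rw [← hsum.sum_add_tsum_subtype_compl s, add_sub_cancel_left]
    have hsc : Summable (fun j : {x // x ∉ s} => w j) := hs.summable.subtype _
    have hscg : Summable (fun j : {x // x ∉ s} => w j * γ j) := hsum.subtype _
    have h2 : ∑' j : {x // x ∉ s}, w j ≤ ε / 8 := by
      have h3 := hs.summable.sum_add_tsum_subtype_compl s
      rw [hs.tsum_eq] at h3
      linarith
    refine le_trans ?_ h2
    rw [← Real.norm_eq_abs]
    refine (norm_tsum_le_tsum_norm hscg.norm).trans ?_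
    refine hscg.norm.tsum_le_tsum (fun j => ?_) hsc
    rw [Real.norm_eq_abs, abs_mul, abs_of_nonneg (hw j)]
    exact mul_le_of_le_one_right (hw j) (hγ j)
  have h1 : Tendsto (fun X => ∑ j ∈ s, PA A E j X) atTop (nhds (∑ j ∈ s, w j)) :=
    tendsto_finsetSum _ fun j _ => hP j
  have h2 : Tendsto (fun X => ∑ j ∈ s, γ j * PA A E j X) atTop (nhds (∑ j ∈ s, γ j * w j)) :=
    tendsto_finsetSum _ fun j _ => (hP j).const_mul (γ j)
  rw [Metric.tendsto_atTop] at h1 h2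
  obtain ⟨N1, hN1⟩ := h1 (ε / 8) (by linarith)
  obtain ⟨N2, hN2⟩ := h2 (ε / 8) (by linarith)
  refine ⟨max N1 N2, fun X hX => ?_⟩
  have h3 := hN1 X ((le_max_left _ _).trans hX)
  have h4 := hN2 X ((le_max_right _ _).trans hX)
  have h5 := decomp A x y E St hE hEx hy' s g γ hg hgγ X
  have h6 : ∑ j ∈ s, γ j * w j = ∑ j ∈ s, w j * γ j := sum_congr rfl fun j _ => mul_comm _ _
  rw [h6] at h4
  rw [Real.dist_eq, abs_lt] at h3 h4
  rw [abs_le] at h5 hs2
  rw [Real.dist_eq, abs_lt]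
  constructor <;> linarith [h3.1, h3.2, h4.1, h4.2, h5.1, h5.2, hs2.1, hs2.2]

include hy in
theorem poly_to (w : ℕ → ℝ) (hs : Summable w) (hw : ∀ j, 0 ≤ w j)
    (hm : ∀ (S : Finset ℕ) (κ : ℕ → ℕ),
      Tendsto (fun X => av A X (fun p => ∏ n ∈ S, (1 / (x p n : ℝ)) ^ κ n)) atTop
      (nhds (∑' j, w j * ∏ n ∈ S, (1 / (y j n : ℝ)) ^ κ n))) (Q : MvPolynomial ℕ ℝ) :
    Tendsto (fun X => av A X (fun p => MvPolynomial.eval (fun n => 1 / (x p n : ℝ)) Q)) atTop
      (nhds (∑' j, w j * MvPolynomial.eval (fun n => 1 / (y j n : ℝ)) Q)) := by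
  have hsum : ∀ (S : Finset ℕ) (κ : ℕ → ℕ),
      Summable (fun j => w j * ∏ n ∈ S, (1 / (y j n : ℝ)) ^ κ n) := by
    intro S κ
    refine Summable.of_norm_bounded hs fun j => ?_
    rw [Real.norm_eq_abs, abs_mul, abs_of_nonneg (hw j)]
    apply mul_le_of_le_one_right (hw j)
    have h1 := prod_mem (fun n => 1 / (y j n : ℝ)) (fun n => (inv_nat _ (hy j n)).1)
        (fun n => (inv_nat _ (hy j n)).2) S κ
    rw [abs_of_nonneg h1.1]
    exact h1.2
  have e1 : ∀ X, av A X (fun p => MvPolynomial.eval (fun n => 1 / (x p n : ℝ)) Q) =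
      ∑ d ∈ Q.support, Q.coeff d *
        av A X (fun p => ∏ n ∈ d.support, (1 / (x p n : ℝ)) ^ d n) := by
    intro X
    rw [← av_sum]
    exact congrArg (av A X) (funext fun p => MvPolynomial.eval_eq _ _)
  have e2 : ∑' j, w j * MvPolynomial.eval (fun n => 1 / (y j n : ℝ)) Q =
      ∑ d ∈ Q.support, Q.coeff d *
        ∑' j, w j * ∏ n ∈ d.support, (1 / (y j n : ℝ)) ^ d n := by
    have : ∀ j, w j * MvPolynomial.eval (fun n => 1 / (y j n : ℝ)) Q =
        ∑ d ∈ Q.support, Q.coeff d *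
          (w j * ∏ n ∈ d.support, (1 / (y j n : ℝ)) ^ d n) := by
      intro j
      rw [MvPolynomial.eval_eq, mul_sum]
      exact sum_congr rfl fun k _ => by ring
    rw [tsum_congr this, Summable.tsum_finsetSum fun k _ => (hsum _ _).mul_left _]
    exact sum_congr rfl fun k _ => tsum_mul_left
  rw [e2]
  simp_rw [e1]
  exact tendsto_finsetSum _ fun d _ => (hm _ _).const_mul _

include hx hy hE hy' in
theorem to_law (w : ℕ → ℝ) (hs : HasSum w 1) (hw : ∀ j, 0 ≤ w j)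
    (hm : ∀ (S : Finset ℕ) (κ : ℕ → ℕ),
      Tendsto (fun X => av A X (fun p => ∏ n ∈ S, (1 / (x p n : ℝ)) ^ κ n)) atTop
      (nhds (∑' j, w j * ∏ n ∈ S, (1 / (y j n : ℝ)) ^ κ n))) (j : ℕ) :
    Tendsto (PA A E j) atTop (nhds (w j)) := by
  rw [Metric.tendsto_atTop]
  intro ε hε
  obtain ⟨Q, hnear⟩ := approx (y j) (St j) (ε / 5) (by linarith)
  have hiff1 : ∀ p, ∏ n ∈ St j, tent (y j n) (1 / (x p n : ℝ)) =
      if E j p then (1 : ℝ) else 0 := by
    intro p
    rw [tent_prod _ _ (x p) (hy j) (hx p)]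
    exact if_congr (hE j p).symm rfl rfl
  have hiff2 : ∀ i, ∏ n ∈ St j, tent (y j n) (1 / (y i n : ℝ)) =
      if i = j then (1 : ℝ) else 0 := by
    intro i
    rw [tent_prod _ _ (y i) (hy j) (hy i)]
    refine if_congr ⟨hy' j i, fun h => ?_⟩ rfl rfl
    subst h
    exact fun _ _ => rfl
  have h1 := poly_to A x y hy w hs.summable hw hm Q
  rw [Metric.tendsto_atTop] at h1
  obtain ⟨N, hN⟩ := h1 (ε / 5) (by linarith)
  refine ⟨N, fun X hX => ?_⟩
  have h2 := hN X hX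
  rw [Real.dist_eq] at h2
  have h3 : |av A X (fun p => MvPolynomial.eval (fun n => 1 / (x p n : ℝ)) Q) - PA A E j X| ≤
      ε / 5 := by
    rw [PA, av_sub]
    refine (av_abs A X _ (fun _ => ε / 5) fun p => ?_).trans (av_const_le A X _ (by linarith))
    have := hnear (fun n => 1 / (x p n : ℝ)) (fun n => inv_nat _ (hx p n))
    rw [hiff1 p] at this
    exact this
  have h4 : |∑' i, w i * MvPolynomial.eval (fun n => 1 / (y i n : ℝ)) Q - w j| ≤ ε / 5 := by
    have hterm : ∀ i, |w i * (MvPolynomial.eval (fun n => 1 / (y i n : ℝ)) Q -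
        if i = j then 1 else 0)| ≤ w i * (ε / 5) := by
      intro i
      rw [abs_mul, abs_of_nonneg (hw i)]
      apply mul_le_mul_of_nonneg_left _ (hw i)
      have := hnear (fun n => 1 / (y i n : ℝ)) (fun n => inv_nat _ (hy i n))
      rwa [hiff2 i] at this
    have hsd : Summable (fun i => w i * (MvPolynomial.eval (fun n => 1 / (y i n : ℝ)) Q -
        if i = j then 1 else 0)) :=
      Summable.of_norm_bounded (hs.summable.mul_right _) fun i => by
        rw [Real.norm_eq_abs]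
        exact hterm i
    have hsj : HasSum (fun i => w i * (if i = j then (1 : ℝ) else 0)) (w j) := by
      have := hasSum_ite_eq j (w j)
      convert this using 2 with i
      by_cases hij : i = j
      · rw [hij]
        simp
      · rw [if_neg hij, if_neg hij, mul_zero]
    have e : (fun i => w i * MvPolynomial.eval (fun n => 1 / (y i n : ℝ)) Q) = fun i =>
        w i * (MvPolynomial.eval (fun n => 1 / (y i n : ℝ)) Q - if i = j then 1 else 0) +
          w i * (if i = j then (1 : ℝ) else 0) := by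
      funext i
      ring
    rw [e, hsd.tsum_add hsj.summable, hsj.tsum_eq, add_sub_cancel_right]
    have hb : ∑' i, w i * (ε / 5) = ε / 5 := by
      rw [tsum_mul_right, hs.tsum_eq, one_mul]
    refine le_trans ?_ hb.le
    rw [← Real.norm_eq_abs]
    refine (norm_tsum_le_tsum_norm hsd.norm).trans ?_
    exact hsd.norm.tsum_le_tsum (fun i => by rw [Real.norm_eq_abs]; exact hterm i)
      (hs.summable.mul_right _)
  rw [abs_le] at h3 h4
  rw [abs_lt] at h2
  rw [Real.dist_eq, abs_lt]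
  constructor <;> linarith [h2.1, h2.2, h3.1, h3.2, h4.1, h4.2]

include hx hy hE hEx hy' in
/-- **laws and mixed moments** -/
theorem law_iff (s : ℕ → ℕ → ℝ)
    (hA : ∀ (S : Finset ℕ) (κ : ℕ → ℕ), Tendsto (fun X : ℕ => av A X (fun d => ∏ n ∈ S, s d n ^ κ n) -
      av A X (fun d => ∏ n ∈ S, (1 / (x d n : ℝ)) ^ κ n)) atTop (nhds 0))
    (w : ℕ → ℝ) (hw : ∀ j, 0 ≤ w j) (hs : HasSum w 1) :
    (∀ j, Tendsto (PA A E j) atTop (nhds (w j))) ↔
      ∀ (S : Finset ℕ) (κ : ℕ → ℕ), Tendsto (fun X => av A X (fun d => ∏ n ∈ S, s d n ^ κ n)) atTop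
        (nhds (∑' j, w j * ∏ n ∈ S, (1 / (y j n : ℝ)) ^ κ n)) := by
  constructor
  · intro hP S κ
    have h1 := law_to A x y E St hE hEx hy' w hw hs hP
      (fun p => ∏ n ∈ S, (1 / (x p n : ℝ)) ^ κ n)
      (fun j => ∏ n ∈ S, (1 / (y j n : ℝ)) ^ κ n) (fun p => by
        have h := prod_mem (fun n => 1 / (x p n : ℝ)) (fun n => (inv_nat _ (hx p n)).1)
          (fun n => (inv_nat _ (hx p n)).2) S κ
        rw [abs_of_nonneg h.1]
        exact h.2) (fun j => by
        have h := prod_mem (fun n => 1 / (y j n : ℝ)) (fun n => (inv_nat _ (hy j n)).1)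
          (fun n => (inv_nat _ (hy j n)).2) S κ
        rw [abs_of_nonneg h.1]
        exact h.2) (fun p i e => by
        refine prod_congr rfl fun n _ => ?_
        rw [hEx i p e n])
    have h2 := (hA S κ).add h1
    rw [zero_add] at h2
    refine h2.congr fun X => ?_
    ring
  · intro hF j
    apply to_law A x y E St hx hy hE hy' w hs hw _ j
    intro S κ
    have h2 := (hF S κ).sub (hA S κ)
    rw [sub_zero] at h2
    refine h2.congr fun X => ?_
    ring

end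

end Pool.Agent.Q299.PPR.Gen
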