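import Pool.Agent.Q299.PPR.Core
import Pool.Agent.Q299.PPR.DefS

/-!
# Almost all real quadratic fields ordered by discriminant
-/

set_option autoImplicit false

namespace Pool.Agent.Q299.PPR

open Filter Finset NumberField
open scoped Classical
open Pool.Agent.Results.MP_321647_nt.RandomWalk

theorem sum_inv_sq (N : ℕ) (hN : 2 ≤ N) :
    ∑ m ∈ Finset.Icc 2 N, (1 : ℝ) / (m : ℝ) ^ 2 ≤ 3 / 4 - 1 / N := by
  induction N, hN using Nat.le_induction with
  | base => norm_num
  | succ N hN ih =>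
    rw [← Nat.succ_eq_add_one, Finset.sum_Icc_succ_top (by omega)]
    have hN0 : (0 : ℝ) < N := by positivity
    have h1 : (1 : ℝ) / ((N : ℝ) + 1) ^ 2 ≤ 1 / N - 1 / (N + 1) := by
      rw [div_sub_div _ _ hN0.ne' (by positivity), div_le_div_iff₀ (by positivity) (by positivity)]
      nlinarith
    push_cast
    linarith

theorem sqf_card (Y : ℕ) : (Y : ℝ) / 4 ≤ (((Finset.Icc 1 Y).filter Squarefree).card : ℝ) := by
  have h1 : ((Finset.Icc 1 Y).filter (fun n => ¬ Squarefree n)) ⊆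
      (Finset.Icc 2 Y).biUnion (fun m => (Finset.Ioc 0 Y).filter (fun n => m ^ 2 ∣ n)) := by
    intro n hn
    rw [mem_filter, mem_Icc] at hn
    obtain ⟨⟨hn1, hn2⟩, hn3⟩ := hn
    have h2 : ∃ m, m * m ∣ n ∧ m ≠ 1 := by
      by_contra hc
      push Not at hc
      exact hn3 fun x hx => Nat.isUnit_iff.2 (hc x hx)
    obtain ⟨m, hm1, hm2⟩ := h2
    have hm0 : m ≠ 0 := by
      rintro rfl
      simp at hm1
      omega
    have hmY : m * m ≤ Y := (Nat.le_of_dvd (by omega) hm1).trans hn2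
    rw [mem_biUnion]
    refine ⟨m, mem_Icc.2 ⟨by omega, by nlinarith [Nat.pos_of_ne_zero hm0]⟩, ?_⟩
    rw [mem_filter, mem_Ioc]
    exact ⟨⟨by omega, hn2⟩, by rw [pow_two]; exact hm1⟩
  have h2 : (((Finset.Icc 1 Y).filter (fun n => ¬ Squarefree n)).card : ℝ) ≤
      ∑ m ∈ Finset.Icc 2 Y, (Y : ℝ) / (m : ℝ) ^ 2 := by
    have h3 := (card_le_card h1).trans card_biUnion_le
    calc (((Finset.Icc 1 Y).filter (fun n => ¬ Squarefree n)).card : ℝ)
        ≤ ((∑ m ∈ Finset.Icc 2 Y, ((Finset.Ioc 0 Y).filter (fun n => m ^ 2 ∣ n)).card : ℕ) : ℝ) := by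
          exact_mod_cast h3
      _ = ∑ m ∈ Finset.Icc 2 Y, (((Finset.Ioc 0 Y).filter (fun n => m ^ 2 ∣ n)).card : ℝ) := by
          push_cast
          rfl
      _ ≤ ∑ m ∈ Finset.Icc 2 Y, (Y : ℝ) / (m : ℝ) ^ 2 := by
          refine sum_le_sum fun m _ => ?_
          rw [Nat.Ioc_filter_dvd_card_eq_div]
          have := @Nat.cast_div_le ℝ _ _ _ Y (m ^ 2)
          push_cast at this
          exact this
  have h3 : ∑ m ∈ Finset.Icc 2 Y, (Y : ℝ) / (m : ℝ) ^ 2 ≤ 3 / 4 * Y := by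
    rcases Nat.lt_or_ge Y 2 with h | h
    · rw [Finset.Icc_eq_empty (by omega), sum_empty]
      positivity
    · have h4 := sum_inv_sq Y h
      have h5 : (0 : ℝ) ≤ 1 / Y := by positivity
      have e : ∑ m ∈ Finset.Icc 2 Y, (Y : ℝ) / (m : ℝ) ^ 2 =
          (∑ m ∈ Finset.Icc 2 Y, (1 : ℝ) / (m : ℝ) ^ 2) * Y := by
        rw [sum_mul]
        exact sum_congr rfl fun m _ => by ring
      rw [e]
      exact mul_le_mul_of_nonneg_right (by linarith) (by positivity)
  have h4 := card_filter_add_card_filter_not (s := Finset.Icc 1 Y) Squarefree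
  rw [Nat.card_Icc, Nat.add_sub_cancel] at h4
  have h5 : (((Finset.Icc 1 Y).filter Squarefree).card : ℝ) +
      (((Finset.Icc 1 Y).filter (fun n => ¬ Squarefree n)).card : ℝ) = Y := by exact_mod_cast h4
  linarith

theorem rads_card (X : ℕ) (hX : 96 ≤ X) : (X : ℝ) / 32 ≤ ((rads X).card : ℝ) := by
  set Y := (X - 1) / 4 with hY
  have h1 : ((Finset.Icc 1 Y).filter Squarefree) ⊆ insert 1 (rads X) := by
    intro d hd
    rw [mem_filter, mem_Icc] at hd
    rw [mem_insert]
    by_cases h : d = 1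
    · exact Or.inl h
    · right
      unfold rads disc
      rw [mem_filter, mem_Ico]
      refine ⟨⟨by omega, by omega⟩, hd.2, ?_⟩
      split_ifs <;> omega
  have h2 := (card_le_card h1).trans (card_insert_le _ _)
  have h3 := sqf_card Y
  have h4 : (((Finset.Icc 1 Y).filter Squarefree).card : ℝ) ≤ ((rads X).card : ℝ) + 1 := by
    exact_mod_cast h2
  have h5 : X ≤ 4 * Y + 4 := by omega
  have h6 : (X : ℝ) ≤ 4 * Y + 4 := by exact_mod_cast h5
  have h7 : (96 : ℝ) ≤ X := by exact_mod_cast hX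
  linarith

theorem bad_rads (a δ : ℝ) (ha : 2 < a) (hδ : 0 < δ) :
    Tendsto (fun X : ℕ => (((rads X).filter (fun d => ¬ Good a δ d)).card : ℝ) /
      ((rads X).card : ℝ)) atTop (nhds 0) := by
  have h1 := (result a δ ha hδ).1
  have h2 := h1.const_mul 32
  rw [mul_zero] at h2
  refine squeeze_zero' (Eventually.of_forall fun X => by positivity) ?_ h2
  filter_upwards [eventually_ge_atTop 96] with X hX
  have h3 := rads_card X hX
  have hX0 : (0 : ℝ) < X := by
    have : (96 : ℝ) ≤ X := by exact_mod_cast hX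
    linarith
  have hsub : (rads X).filter (fun d => ¬ Good a δ d) ⊆
      (Finset.Icc 1 X).filter (fun d => Squarefree d ∧ ¬ Good a δ d) := by
    intro d hd
    unfold rads at hd
    rw [mem_filter, mem_filter, mem_Ico] at hd
    rw [mem_filter, mem_Icc]
    exact ⟨⟨by omega, by omega⟩, hd.1.2.1, hd.2⟩
  have h4 : (((rads X).filter (fun d => ¬ Good a δ d)).card : ℝ) ≤
      (((Finset.Icc 1 X).filter (fun d => Squarefree d ∧ ¬ Good a δ d)).card : ℝ) := by
    exact_mod_cast card_le_card hsub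
  have h5 : (0 : ℝ) < X / 32 := by positivity
  calc (((rads X).filter (fun d => ¬ Good a δ d)).card : ℝ) / ((rads X).card : ℝ)
      ≤ (((Finset.Icc 1 X).filter (fun d => Squarefree d ∧ ¬ Good a δ d)).card : ℝ) / (X / 32) :=
        div_le_div₀ (by positivity) h4 h5 h3
    _ = 32 * ((((Finset.Icc 1 X).filter (fun d => Squarefree d ∧ ¬ Good a δ d)).card : ℝ) / X) := by
        field_simp

theorem finrank_QS' (d : ℕ) (h2 : 2 ≤ d) (hd : Squarefree d) : Module.finrank ℚ (QS d) = 2 := by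
  have h0 : (0 : ℝ) ≤ d := by positivity
  rw [IntermediateField.adjoin.finrank (sqrt_integral d)]
  have h1 : (minpoly ℚ (Real.sqrt (d : ℝ))).natDegree ≤ 2 := by
    have hd : minpoly ℚ (Real.sqrt (d : ℝ)) ∣ Polynomial.X ^ 2 - Polynomial.C (d : ℚ) := by
      apply minpoly.dvd
      simp [Real.sq_sqrt h0]
    have h2 := Polynomial.natDegree_le_of_dvd hd
      (Polynomial.X_pow_sub_C_ne_zero (by norm_num) _)
    rwa [Polynomial.natDegree_X_pow_sub_C] at h2
  have h2 : 0 < (minpoly ℚ (Real.sqrt (d : ℝ))).natDegree :=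
    minpoly.natDegree_pos (sqrt_integral d)
  have h3 : (minpoly ℚ (Real.sqrt (d : ℝ))).natDegree ≠ 1 := by
    intro h
    have h4 := (minpoly.natDegree_eq_one_iff).1 h
    obtain ⟨q, hq⟩ := h4
    have h5 : Irrational (Real.sqrt (d : ℝ)) := by
      rw [irrational_sqrt_natCast_iff]
      rintro ⟨r, hr⟩
      have h6 : IsUnit r := hd r (by rw [hr])
      rw [Nat.isUnit_iff] at h6
      rw [h6] at hr
      omega
    apply h5
    exact ⟨q, by simpa using hq⟩
  omega

theorem share_goodS (a ε : ℝ) (d m n : ℕ) (h2 : 2 ≤ d) (hd : Squarefree d) (hg : Good a ε d)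
    (hm : 500 * (Real.log d / Real.log (Real.log d)) ≤ m) :
    |share (QS d) ((Real.log d) ^ a) m n - 1 / (ind n d : ℝ)| ≤ ε := by
  obtain ⟨_, h2, _⟩ := hg (QS d) (finrank_QS' d h2 hd) (root_QS d) m hm
  rw [share_eq]
  unfold ind
  rw [← card_pow]
  have e : (((univ : Finset (ClassGroup (𝓞 (QS d)))).filter
      (fun D => ∃ C, D = C ^ n)).card : ℝ) / (Nat.card (ClassGroup (𝓞 (QS d))) : ℝ) =
      ∑ D ∈ (univ : Finset (ClassGroup (𝓞 (QS d)))).filter (fun D => ∃ C, D = C ^ n),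
        1 / (Nat.card (ClassGroup (𝓞 (QS d))) : ℝ) := by
    rw [sum_const, nsmul_eq_mul]
    ring
  rw [e, ← sum_sub_distrib]
  refine (abs_sum_le_sum_abs _ _).trans ?_
  refine le_trans (sum_le_sum_of_subset_of_nonneg (filter_subset _ _)
    fun _ _ _ => abs_nonneg _) h2

theorem tor_eq (n d : ℕ) : tor n d = ind n d := by
  unfold tor ind
  rw [Subgroup.index_range]
  rfl

theorem tor_pos (n d : ℕ) : 1 ≤ tor n d := by
  rw [tor_eq]
  exact ind_pos n d

end Pool.Agent.Q299.PPR
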