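import Pool.Agent.Q299.PPR.Av
import Pool.Agent.Q299.PPR.Sq

/-!
# Truncated averages and laws of the torsion of the class groups of real quadratic fields
-/

set_option autoImplicit false

namespace Pool.Agent.Q299.PPR

open Filter Finset NumberField
open scoped Classical
open Pool.Agent.Results.MP_321647_nt.RandomWalk

section

variable (a : ℝ) (ha : 2 < a) (M : ℕ → ℕ)
  (hM : ∀ d : ℕ, 2 ≤ d → Squarefree d → 500 * (Real.log d / Real.log (Real.log d)) ≤ M d) (n : ℕ)

include hM in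
theorem hG_rads (δ : ℝ) (X d : ℕ) (hd : d ∈ rads X) (hg : Good a δ d) :
    |share (QS d) ((Real.log d) ^ a) (M d) n - 1 / (tor n d : ℝ)| ≤ δ := by
  unfold rads at hd
  rw [mem_filter, mem_Ico] at hd
  rw [tor_eq]
  exact share_goodS a δ d (M d) n hd.1.1 hd.2.1 hg (hM d hd.1.1 hd.2.1)

include ha hM

theorem wait_sandwich (K T : ℕ) (hT : 1 ≤ T) (ε : ℝ) (hε : 0 < ε) : ∀ᶠ X in atTop,
    avg X (fun d => min (tor n d : ℝ) T) - T * Real.exp (-(K / T)) - ε ≤ avg X (wait a M n K) ∧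
    avg X (wait a M n K) ≤ avg X (fun d => min (tor n d : ℝ) K) + ε :=
  Av.sandwich rads (fun d => share (QS d) ((Real.log d) ^ a) (M d) n) (tor n)
    (fun _ => share_nonneg _ _ _ _) (fun _ => share_le_one _ _ _ _) (tor_pos n)
    (fun δ d => Good a δ d) (hG_rads a M hM n) (fun δ hδ => bad_rads a δ ha hδ) K T hT ε hε

theorem wait_iff (c : ℝ) :
    (∀ ε : ℝ, 0 < ε → ∀ᶠ T : ℕ in atTop, ∀ᶠ X in atTop,
      |avg X (fun d => min (tor n d : ℝ) T) - c| ≤ ε) ↔
    (∀ ε : ℝ, 0 < ε → ∀ᶠ K : ℕ in atTop, ∀ᶠ X in atTop, |avg X (wait a M n K) - c| ≤ ε) :=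
  Av.iff_trunc rads (fun d => share (QS d) ((Real.log d) ^ a) (M d) n) (tor n)
    (fun _ => share_nonneg _ _ _ _) (fun _ => share_le_one _ _ _ _) (tor_pos n)
    (fun δ d => Good a δ d) (hG_rads a M hM n) (fun δ hδ => bad_rads a δ ha hδ) c

theorem tor_law (w : ℕ → ℝ) (hw : ∀ j, 0 ≤ w j) (hw0 : w 0 = 0) (hs : HasSum w 1) :
    (∀ j, 1 ≤ j → Tendsto (fun X => (((rads X).filter (fun d => tor n d = j)).card : ℝ) /
      ((rads X).card : ℝ)) atTop (nhds (w j))) ↔
      ∀ k, 1 ≤ k → Tendsto (fun X => avg X (fun d =>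
        share (QS d) ((Real.log d) ^ a) (M d) n ^ k)) atTop (nhds (∑' j, w j / (j : ℝ) ^ k)) := by
  have h1 := Av.law_iff rads (tor n) (tor_pos n)
    (fun d => share (QS d) ((Real.log d) ^ a) (M d) n)
    (Av.pow_tendsto rads (fun d => share (QS d) ((Real.log d) ^ a) (M d) n) (tor n)
      (fun _ => share_nonneg _ _ _ _) (fun _ => share_le_one _ _ _ _) (tor_pos n)
      (fun δ d => Good a δ d) (hG_rads a M hM n) (fun δ hδ => bad_rads a δ ha hδ)) w hw hw0 hs
  have e : ∀ j X, (((rads X).filter (fun d => tor n d = j)).card : ℝ) / ((rads X).card : ℝ) =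
      Av.av rads X (fun d => if tor n d = j then (1 : ℝ) else 0) := by
    intro j X
    unfold Av.av
    rw [sum_ite, sum_const_zero, add_zero, sum_const, nsmul_eq_mul, mul_one]
  simp_rw [e]
  exact h1

end

end Pool.Agent.Q299.PPR
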