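import Pool.Agent.Q299.PPR.DefP
import Pool.Agent.Q299.PPR.Wt
import Pool.Agent.Q299.PPR.Gen

/-!
# Proofs: the law of the p-parts of the class groups of the real quadratic fields
-/

set_option autoImplicit false

namespace Pool.Agent.Q299.PPR

open Filter Finset NumberField
open scoped Classical
open Pool.Agent.Results.MP_321647_nt.RandomWalk

theorem gtor_congr (n : ℕ) (G H : Type) [CommGroup G] [CommGroup H] (e : G ≃* H) :
    gtor n G = gtor n H := by
  unfold gtor
  apply Nat.card_congr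
  refine Equiv.subtypeEquiv e.toEquiv ?_
  intro x
  have : e.toEquiv x ^ n = e (x ^ n) := (map_pow e x n).symm
  rw [this]
  exact (map_eq_one_iff e e.injective).symm

theorem gtor_pos (n : ℕ) (G : Type) [CommGroup G] [Finite G] : 1 ≤ gtor n G := by
  unfold gtor
  have : Nonempty {g : G // g ^ n = 1} := ⟨⟨1, one_pow _⟩⟩
  exact Nat.one_le_iff_ne_zero.2 Nat.card_pos.ne'

theorem gtor_index (n : ℕ) (G : Type) [CommGroup G] [Finite G] :
    (powMonoidHom n : G →* G).range.index = gtor n G := by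
  unfold gtor
  rw [Subgroup.index_range]
  rfl

theorem gtor_full (n : ℕ) (G : Type) [CommGroup G] (h : ∀ x : G, x ^ n = 1) :
    gtor n G = Nat.card G := by
  unfold gtor
  exact Nat.card_congr (Equiv.subtypeUnivEquiv h)

/-- the elements that are killed by a power of `p` -/
def expl (p : ℕ) (G : Type) [CommGroup G] : Subgroup G where
  carrier := {g | ∃ k : ℕ, g ^ (p ^ k) = 1}
  mul_mem' := by
    rintro g h ⟨k, hk⟩ ⟨l, hl⟩
    refine ⟨k + l, ?_⟩
    rw [mul_pow, pow_add, pow_mul, hk, one_pow, one_mul, mul_comm, pow_mul, hl, one_pow]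
  one_mem' := ⟨0, one_pow _⟩
  inv_mem' := by
    rintro g ⟨k, hk⟩
    exact ⟨k, by rw [inv_pow, hk, inv_one]⟩

theorem mem_ppart (p : ℕ) (G : Type) [CommGroup G] (g : G) :
    g ∈ ppart p G ↔ ∃ k : ℕ, g ^ (p ^ k) = 1 := by
  constructor
  · intro h
    have h1 : ppart p G ≤ expl p G := by
      unfold ppart
      rw [Subgroup.closure_le]
      exact fun x hx => hx
    exact h1 h
  · intro h
    exact Subgroup.subset_closure h

theorem gtor_ppart (p j : ℕ) (G : Type) [CommGroup G] : gtor (p ^ j) (ppart p G) = gtor (p ^ j) G := by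
  unfold gtor
  apply Nat.card_congr
  exact { toFun := fun g => ⟨g.1.1, by
            have := congrArg Subtype.val g.2
            simpa using this⟩
          invFun := fun g => ⟨⟨g.1, (mem_ppart p G g.1).2 ⟨j, g.2⟩⟩,
            Subtype.ext (by simpa using g.2)⟩
          left_inv := fun _ => rfl
          right_inv := fun _ => rfl }

theorem ppart_isP (p : ℕ) (G : Type) [CommGroup G] : IsPGroup p (ppart p G) := by
  rintro ⟨g, hg⟩
  obtain ⟨k, hk⟩ := (mem_ppart p G g).1 hg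
  exact ⟨k, Subtype.ext (by simpa using hk)⟩

theorem gtor_val (p : ℕ) (hp : p.Prime) (P : Type) [CommGroup P] (hP : IsPGroup p P) (n : ℕ)
    (hn : n ≠ 0) : gtor n P = gtor (p ^ n.factorization p) P := by
  have : Fact p.Prime := ⟨hp⟩
  unfold gtor
  apply Nat.card_congr
  refine Equiv.subtypeEquivRight ?_
  intro x
  obtain ⟨k, hk⟩ := IsPGroup.iff_orderOf.1 hP x
  rw [← orderOf_dvd_iff_pow_eq_one, ← orderOf_dvd_iff_pow_eq_one, hk,
    hp.pow_dvd_iff_le_factorization hn, Nat.pow_dvd_pow_iff_le_right hp.one_lt]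

theorem gtor_all (p : ℕ) (hp : p.Prime) (P : Type) [CommGroup P] [Finite P] (hP : IsPGroup p P)
    (N : ℕ) (h : gtor (p ^ (N + 1)) P = gtor (p ^ N) P) (x : P) : x ^ (p ^ N) = 1 := by
  have : Fact p.Prime := ⟨hp⟩
  have := Fintype.ofFinite P
  have h1 : (univ.filter fun x : P => x ^ (p ^ N) = 1) =
      univ.filter fun x : P => x ^ (p ^ (N + 1)) = 1 := by
    apply eq_of_subset_of_card_le
    · intro y hy
      rw [mem_filter] at hy ⊢
      refine ⟨mem_univ _, ?_⟩
      rw [pow_succ, pow_mul, hy.2, one_pow]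
    · unfold gtor at h
      rw [Nat.card_eq_fintype_card, Nat.card_eq_fintype_card, Fintype.card_subtype,
        Fintype.card_subtype] at h
      exact h.le
  have h2 : ∀ y : P, y ^ (p ^ (N + 1)) = 1 → y ^ (p ^ N) = 1 := by
    intro y hy
    have : y ∈ univ.filter fun x : P => x ^ (p ^ (N + 1)) = 1 := mem_filter.2 ⟨mem_univ _, hy⟩
    rw [← h1] at this
    exact (mem_filter.1 this).2
  obtain ⟨k, hk⟩ := IsPGroup.iff_orderOf.1 hP x
  by_contra hc
  have h3 : N + 1 ≤ k := by
    by_contra h4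
    apply hc
    rw [← orderOf_dvd_iff_pow_eq_one, hk]
    exact pow_dvd_pow _ (by omega)
  have h5 := h2 (x ^ (p ^ (k - (N + 1)))) (by
    rw [← pow_mul, ← pow_add, Nat.sub_add_cancel h3, ← hk]
    exact pow_orderOf_eq_one x)
  rw [← pow_mul, ← pow_add, ← orderOf_dvd_iff_pow_eq_one, hk,
    Nat.pow_dvd_pow_iff_le_right hp.one_lt] at h5
  omega

theorem iso_p (p : ℕ) (hp : p.Prime) (P H : Type) [CommGroup P] [CommGroup H] [Finite P] [Finite H]
    (hP : IsPGroup p P) (hH : IsPGroup p H)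
    (h : ∀ j ∈ range (Nat.card H + 2), gtor (p ^ j) P = gtor (p ^ j) H) : Nonempty (P ≃* H) := by
  have : Fact p.Prime := ⟨hp⟩
  obtain ⟨N, hN⟩ := IsPGroup.iff_card.1 hH
  have hNH : N < Nat.card H := by
    rw [hN]
    exact Nat.lt_pow_self hp.one_lt
  have hHN : ∀ x : H, x ^ (p ^ N) = 1 := by
    intro x
    rw [← hN]
    exact pow_card_eq_one'
  have hup : ∀ (Q : Type) [CommGroup Q], (∀ x : Q, x ^ (p ^ N) = 1) → ∀ j, N ≤ j →
      gtor (p ^ j) Q = Nat.card Q := by
    intro Q _ hQ j hj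
    apply gtor_full
    intro x
    obtain ⟨i, rfl⟩ := Nat.exists_eq_add_of_le hj
    rw [pow_add, pow_mul, hQ, one_pow]
  have hPN : ∀ x : P, x ^ (p ^ N) = 1 := by
    apply gtor_all p hp P hP N
    rw [h (N + 1) (mem_range.2 (by omega)), h N (mem_range.2 (by omega)),
      hup H hHN (N + 1) (by omega), hup H hHN N le_rfl]
  have hcard : Nat.card P = Nat.card H := by
    rw [← hup P hPN N le_rfl, h N (mem_range.2 (by omega)), hup H hHN N le_rfl]
  apply Iso.iso_of_index
  intro n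
  rw [gtor_index, gtor_index]
  rcases Nat.eq_zero_or_pos n with h0 | h0
  · rw [h0, gtor_full 0 P fun x => pow_zero x, gtor_full 0 H fun x => pow_zero x]
    exact hcard
  · rw [gtor_val p hp P hP n h0.ne', gtor_val p hp H hH n h0.ne']
    rcases Nat.lt_or_ge (n.factorization p) N with h1 | h1
    · exact h _ (mem_range.2 (by omega))
    · rw [hup P hPN _ h1, hup H hHN _ h1]
      exact hcard

theorem partP (a : ℝ) (ha : 2 < a) (M : ℕ → ℕ)
    (hM : ∀ d : ℕ, 2 ≤ d → Squarefree d → 500 * (Real.log d / Real.log (Real.log d)) ≤ M d)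
    (p : ℕ) (hp : p.Prime) (G : ℕ → Type) [∀ i, CommGroup (G i)] [∀ i, Finite (G i)]
    (hpG : ∀ i, IsPGroup p (G i)) (hG : ∀ i j, Nonempty (G i ≃* G j) → i = j)
    (w : ℕ → ℝ) (hw : ∀ j, 0 ≤ w j) (hs : HasSum w 1) :
    (∀ i, Tendsto (PPt p (G i)) atTop (nhds (w i))) ↔
      ∀ (S : Finset ℕ) (κ : ℕ → ℕ), Tendsto (FP a M p S κ) atTop
        (nhds (∑' i, w i * ∏ j ∈ S, (1 / (gtor (p ^ j) (G i) : ℝ)) ^ κ j)) := by
  have hfin : ∀ d, Finite (Cl d) := fun d => inferInstanceAs (Finite (ClassGroup (𝓞 (QS d))))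
  have hx : ∀ d j, 1 ≤ gtor (p ^ j) (Cl d) := fun d j => gtor_pos _ _
  have hA := Gen.mixed_tendsto rads (fun d j => share (QS d) ((Real.log d) ^ a) (M d) (p ^ j))
    (fun d j => gtor (p ^ j) (Cl d)) (fun _ _ => share_nonneg _ _ _ _)
    (fun _ _ => share_le_one _ _ _ _) hx (fun δ d => Good a δ d)
    (fun δ X d hd hg j => hG_rads a M hM (p ^ j) δ X d hd hg) (fun δ hδ => bad_rads a δ ha hδ)
  have hEx : ∀ i d, IsoPart p d (G i) → ∀ j,
      gtor (p ^ j) (Cl d) = gtor (p ^ j) (G i) := by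
    rintro i d ⟨e⟩ j
    rw [← gtor_ppart]
    exact gtor_congr _ _ _ e
  have hE : ∀ i d, IsoPart p d (G i) ↔
      ∀ j ∈ range (Nat.card (G i) + 2),
        gtor (p ^ j) (Cl d) = gtor (p ^ j) (G i) := by
    intro i d
    refine ⟨fun h j _ => hEx i d h j, fun h => ?_⟩
    apply iso_p p hp _ _ (ppart_isP p _) (hpG i)
    intro j hj
    rw [gtor_ppart]
    exact h j hj
  have hy' : ∀ i i', (∀ j ∈ range (Nat.card (G i) + 2), gtor (p ^ j) (G i') = gtor (p ^ j) (G i)) →
      i' = i := fun i i' h => hG i' i (iso_p p hp _ _ (hpG i') (hpG i) h)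
  have h1 := Gen.law_iff rads (fun d j => gtor (p ^ j) (Cl d))
    (fun i j => gtor (p ^ j) (G i)) (fun i d => IsoPart p d (G i))
    (fun i => range (Nat.card (G i) + 2)) hx (fun i j => gtor_pos _ _) hE hEx hy'
    (fun d j => share (QS d) ((Real.log d) ^ a) (M d) (p ^ j)) hA w hw hs
  have e : ∀ i, PPt p (G i) = Gen.PA rads
      (fun i d => IsoPart p d (G i)) i := by
    intro i
    funext X
    unfold PPt Gen.PA Av.av
    rw [sum_ite, sum_const_zero, add_zero, sum_const, nsmul_eq_mul, mul_one]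
  simp_rw [e]
  exact h1

end Pool.Agent.Q299.PPR
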